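import Mathlib

set_option autoImplicit false
set_option linter.unusedSectionVars false

open scoped InnerProductSpace ComplexConjugate
open Filter Topology

namespace Pool.Agent.W621.KKS

/-- Kolmogorov decomposition of a positive semidefinite kernel. -/
theorem kol {ι : Type} (k : ι → ι → ℂ) (hsym : ∀ i j, conj (k j i) = k i j)
    (hpos : ∀ c : ι →₀ ℂ, 0 ≤ (c.sum fun i a => c.sum fun j b => conj a * (b * k i j)).re) :
    ∃ (K : Type) (_ : NormedAddCommGroup K) (_ : InnerProductSpace ℂ K) (_ : CompleteSpace K)
      (v : ι → K), (∀ i j, ⟪v i, v j⟫_ℂ = k i j) ∧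
        DenseRange (Finsupp.linearCombination ℂ v) := by
  classical
  let core : PreInnerProductSpace.Core ℂ (ι →₀ ℂ) :=
    { inner := fun f g => f.sum fun i a => g.sum fun j b => conj a * (b * k i j)
      conj_inner_symm := by
        intro f g
        simp only [Finsupp.sum, map_sum, map_mul, Complex.conj_conj]
        rw [Finset.sum_comm]
        refine Finset.sum_congr rfl fun i _ => Finset.sum_congr rfl fun j _ => ?_
        rw [hsym]; ring
      re_inner_nonneg := fun f => hpos f
      add_left := by
        intro f g h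
        rw [Finsupp.sum_add_index']
        · intro i; simp
        · intro i a b
          simp only [map_add, add_mul]
          rw [← Finsupp.sum_add]
      smul_left := by
        intro f g r
        rw [Finsupp.sum_smul_index']
        · simp only [smul_eq_mul, map_mul, Finsupp.sum, Finset.mul_sum]
          refine Finset.sum_congr rfl fun i _ => Finset.sum_congr rfl fun j _ => ?_
          ring
        · intro i; simp }
  let _ : SeminormedAddCommGroup (ι →₀ ℂ) :=
    @InnerProductSpace.Core.toSeminormedAddCommGroup ℂ (ι →₀ ℂ) _ _ _ core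
  let _ : InnerProductSpace ℂ (ι →₀ ℂ) := InnerProductSpace.ofCore core
  let K := UniformSpace.Completion (ι →₀ ℂ)
  let e : (ι →₀ ℂ) →L[ℂ] K := UniformSpace.Completion.toComplL
  refine ⟨K, inferInstance, inferInstance, inferInstance, fun i => e (Finsupp.single i 1), ?_, ?_⟩
  · intro i j
    have h1 : ⟪e (Finsupp.single i 1), e (Finsupp.single j 1)⟫_ℂ =
        ⟪(Finsupp.single i 1 : ι →₀ ℂ), (Finsupp.single j 1 : ι →₀ ℂ)⟫_ℂ :=
      UniformSpace.Completion.inner_coe _ _
    rw [h1]
    show (Finsupp.single i (1 : ℂ)).sum (fun i a => (Finsupp.single j (1 : ℂ)).sum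
      fun j b => conj a * (b * k i j)) = k i j
    rw [Finsupp.sum_single_index, Finsupp.sum_single_index] <;> simp
  · have h2 : ∀ c : ι →₀ ℂ, Finsupp.linearCombination ℂ (fun i => e (Finsupp.single i 1)) c =
        e c := by
      intro c
      rw [Finsupp.linearCombination_apply]
      conv_rhs => rw [← Finsupp.sum_single c]
      rw [Finsupp.sum, Finsupp.sum, map_sum]
      refine Finset.sum_congr rfl fun i _ => ?_
      rw [← map_smul, Finsupp.smul_single, smul_eq_mul, mul_one]
    have h3 : (Finsupp.linearCombination ℂ (fun i => e (Finsupp.single i 1)) :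
        (ι →₀ ℂ) → K) = e := funext h2
    rw [h3]
    exact UniformSpace.Completion.denseRange_coe

section ext

variable {ι K K' : Type} [NormedAddCommGroup K] [InnerProductSpace ℂ K] [CompleteSpace K]
  [NormedAddCommGroup K'] [InnerProductSpace ℂ K'] [CompleteSpace K']

/-- bounded operators defined on a total family -/
theorem ext_total (v : ι → K) (w : ι → K') (hv : DenseRange (Finsupp.linearCombination ℂ v))
    (C : ℝ) (hC : 0 ≤ C)
    (h : ∀ c : ι →₀ ℂ, ‖Finsupp.linearCombination ℂ w c‖ ≤ C * ‖Finsupp.linearCombination ℂ v c‖) :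
    ∃ T : K →L[ℂ] K', (∀ i, T (v i) = w i) ∧ ‖T‖ ≤ C := by
  refine ⟨(Finsupp.linearCombination ℂ w).extendOfNorm (Finsupp.linearCombination ℂ v), ?_, ?_⟩
  · intro i
    have := LinearMap.extendOfNorm_eq hv ⟨C, h⟩ (Finsupp.single i 1)
    simpa [Finsupp.linearCombination_single] using this
  · exact LinearMap.opNorm_extendOfNorm_le hv hC h

/-- operators which agree on a total family are equal -/
theorem eq_total (v : ι → K) (hv : DenseRange (Finsupp.linearCombination ℂ v))
    (S T : K →L[ℂ] K') (h : ∀ i, S (v i) = T (v i)) : S = T := by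
  have h1 : ∀ c : ι →₀ ℂ, S (Finsupp.linearCombination ℂ v c) =
      T (Finsupp.linearCombination ℂ v c) := by
    intro c
    rw [Finsupp.linearCombination_apply, Finsupp.sum, map_sum, map_sum]
    refine Finset.sum_congr rfl fun i _ => ?_
    rw [map_smul, map_smul, h]
  ext x
  refine hv.induction_on (p := fun x => S x = T x) x (isClosed_eq S.continuous T.continuous) ?_
  intro c
  exact h1 c

theorem inner_total (v : ι → K) (hv : DenseRange (Finsupp.linearCombination ℂ v))
    (S T : K →L[ℂ] K) (h : ∀ i j, ⟪v i, S (v j)⟫_ℂ = ⟪v i, T (v j)⟫_ℂ) : S = T := by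
  refine eq_total v hv S T fun j => ?_
  refine ext_inner_left ℂ fun x => ?_
  refine hv.induction_on (p := fun x => ⟪x, S (v j)⟫_ℂ = ⟪x, T (v j)⟫_ℂ) x
    (isClosed_eq (by fun_prop) (by fun_prop)) ?_
  intro c
  rw [Finsupp.linearCombination_apply, Finsupp.sum, sum_inner, sum_inner]
  refine Finset.sum_congr rfl fun i _ => ?_
  rw [inner_smul_left, inner_smul_left, h]

end ext

end Pool.Agent.W621.KKS
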