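import Mathlib
import Pool.Agent.W662.KKS.Defs
import Pool.Agent.W662.KKS.Defs2

set_option autoImplicit false
set_option linter.unusedSectionVars false

open scoped InnerProductSpace ComplexConjugate
open Filter Topology Pool.Agent.Helper278 Pool.Agent.W662.KKS

namespace Pool.Agent.W621.KKS

variable {H : Type} [NormedAddCommGroup H] [InnerProductSpace ℂ H] [CompleteSpace H]

theorem nonneg_iff (T : H →L[ℂ] H) :
    0 ≤ T ↔ star T = T ∧ ∀ v, 0 ≤ (⟪v, T v⟫_ℂ).re := by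
  rw [ContinuousLinearMap.nonneg_iff_isPositive, ContinuousLinearMap.isPositive_def']
  constructor
  · rintro ⟨h1, h2⟩
    refine ⟨h1, fun v => ?_⟩
    have := h2 v
    rw [ContinuousLinearMap.reApplyInnerSelf_apply, inner_re_symm] at this
    exact this
  · rintro ⟨h1, h2⟩
    refine ⟨h1, fun v => ?_⟩
    rw [ContinuousLinearMap.reApplyInnerSelf_apply, inner_re_symm]
    exact h2 v

theorem re_nonneg {T : H →L[ℂ] H} (h : 0 ≤ T) (v : H) : 0 ≤ (⟪v, T v⟫_ℂ).re :=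
  ((nonneg_iff T).1 h).2 v

theorem norm_sq_of {s h : H →L[ℂ] H} (hs : star s * s = h) (v : H) :
    ‖s v‖ ^ 2 = (⟪v, h v⟫_ℂ).re := by
  rw [← hs, ContinuousLinearMap.star_eq_adjoint]
  show _ = (⟪v, ContinuousLinearMap.adjoint s (s v)⟫_ℂ).re
  rw [ContinuousLinearMap.adjoint_inner_right, inner_self_eq_norm_sq_to_K]
  norm_cast

theorem norm_sq_le {T : H →L[ℂ] H} (h : 0 ≤ T) (v : H) :
    ‖T v‖ ^ 2 ≤ ‖T‖ * (⟪v, T v⟫_ℂ).re := by
  have hs : CFC.sqrt T * CFC.sqrt T = T := CFC.sqrt_mul_sqrt_self T h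
  have hsa : star (CFC.sqrt T) = CFC.sqrt T :=
    (IsSelfAdjoint.of_nonneg (CFC.sqrt_nonneg T)).star_eq
  have h1 : star (CFC.sqrt T) * CFC.sqrt T = T := by rw [hsa, hs]
  have h2 : ‖star (CFC.sqrt T) * CFC.sqrt T‖ = ‖CFC.sqrt T‖ * ‖CFC.sqrt T‖ :=
    CStarRing.norm_star_mul_self
  rw [h1] at h2
  rw [← norm_sq_of h1 v, h2]
  have h3 : T v = CFC.sqrt T (CFC.sqrt T v) := by
    conv_lhs => rw [← hs]
    rfl
  rw [h3]
  have h4 := (CFC.sqrt T).le_opNorm (CFC.sqrt T v)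
  calc ‖CFC.sqrt T (CFC.sqrt T v)‖ ^ 2 ≤ (‖CFC.sqrt T‖ * ‖CFC.sqrt T v‖) ^ 2 :=
        pow_le_pow_left₀ (norm_nonneg _) h4 2
    _ = _ := by ring

theorem sqrt_mem (M : VonNeumannAlgebra H) {h : H →L[ℂ] H} (h1 : h ∈ M) : CFC.sqrt h ∈ M := by
  rw [← VonNeumannAlgebra.commutant_commutant M, VonNeumannAlgebra.mem_commutant_iff]
  intro g hg
  rw [VonNeumannAlgebra.mem_commutant_iff] at hg
  have h2 : Commute h g := hg h h1
  have h3 : Commute (CFC.sqrt h) g := h2.cfcₙ_nnreal NNReal.sqrt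
  exact h3.symm

theorem sle_iff {M : VonNeumannAlgebra H} (x y : Elt M) :
    SLe x y ↔ 0 ≤ (y : H →L[ℂ] H) - (x : H →L[ℂ] H) := by
  constructor
  · rintro ⟨z, hz⟩
    have : (y : H →L[ℂ] H) - (x : H →L[ℂ] H) = star (z : H →L[ℂ] H) * (z : H →L[ℂ] H) := by
      have := congrArg (fun t : Elt M => (t : H →L[ℂ] H)) hz
      simpa using this
    rw [this]
    exact star_mul_self_nonneg _
  · intro h
    have hm : (y : H →L[ℂ] H) - (x : H →L[ℂ] H) ∈ M := sub_mem y.2 x.2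
    refine ⟨⟨CFC.sqrt ((y : H →L[ℂ] H) - (x : H →L[ℂ] H)), sqrt_mem M hm⟩, ?_⟩
    apply Subtype.ext
    have hs := CFC.sqrt_mul_sqrt_self _ h
    have hsa : star (CFC.sqrt ((y : H →L[ℂ] H) - (x : H →L[ℂ] H))) =
        CFC.sqrt ((y : H →L[ℂ] H) - (x : H →L[ℂ] H)) :=
      (IsSelfAdjoint.of_nonneg (CFC.sqrt_nonneg _)).star_eq
    show (y : H →L[ℂ] H) - (x : H →L[ℂ] H) = star (CFC.sqrt _) * CFC.sqrt _
    rw [hsa, hs]

theorem sle_trans {M : VonNeumannAlgebra H} {x y z : Elt M} (h1 : SLe x y) (h2 : SLe y z) :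
    SLe x z := by
  rw [sle_iff] at *
  have := add_nonneg h2 h1
  simpa using this

theorem sle_refl {M : VonNeumannAlgebra H} (x : Elt M) : SLe x x := by
  rw [sle_iff]; simp

/-- strong limits of bounded sequences, tested on a dense set -/
theorem strong_limit (y : ℕ → H →L[ℂ] H) (B : ℝ) (hB : ∀ n, ‖y n‖ ≤ B) (S : Set H)
    (hS : ∀ v : H, ∀ ε : ℝ, 0 < ε → ∃ u ∈ S, ‖v - u‖ ≤ ε)
    (hc : ∀ u ∈ S, CauchySeq fun n => y n u) :
    ∃ t : H →L[ℂ] H, ∀ v, Tendsto (fun n => y n v) atTop (𝓝 (t v)) := by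
  have hB0 : 0 ≤ B := (norm_nonneg _).trans (hB 0)
  have h1 : ∀ v, CauchySeq fun n => y n v := by
    intro v
    rw [Metric.cauchySeq_iff']
    intro ε hε
    obtain ⟨u, hu, hvu⟩ := hS v (ε / (4 * (B + 1))) (by positivity)
    obtain ⟨N, hN⟩ := Metric.cauchySeq_iff'.1 (hc u hu) (ε / 4) (by positivity)
    refine ⟨N, fun n hn => ?_⟩
    have h2 := hN n hn
    rw [dist_eq_norm] at h2 ⊢
    have h3 : ∀ m, ‖y m v - y m u‖ ≤ ε / 4 := by
      intro m
      rw [← map_sub]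
      calc ‖y m (v - u)‖ ≤ ‖y m‖ * ‖v - u‖ := (y m).le_opNorm _
        _ ≤ (B + 1) * (ε / (4 * (B + 1))) := by
            apply mul_le_mul ((hB m).trans (by linarith)) hvu (norm_nonneg _) (by linarith)
        _ = ε / 4 := by field_simp
    have h4 : y n v - y N v = (y n v - y n u) + (y n u - y N u) - (y N v - y N u) := by abel
    rw [h4]
    calc ‖(y n v - y n u) + (y n u - y N u) - (y N v - y N u)‖
        ≤ ‖(y n v - y n u) + (y n u - y N u)‖ + ‖y N v - y N u‖ := norm_sub_le _ _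
      _ ≤ ‖y n v - y n u‖ + ‖y n u - y N u‖ + ‖y N v - y N u‖ := by
          gcongr; exact norm_add_le _ _
      _ < ε := by linarith [h3 n, h3 N]
  choose f hf using fun v => cauchySeq_tendsto_of_complete (h1 v)
  refine ⟨continuousLinearMapOfTendsto y (f := f) (tendsto_pi_nhds.2 hf), hf⟩

section nrm

variable {M : VonNeumannAlgebra H} {ξ : H} {ρ : (H →L[ℂ] H) → (H →L[ℂ] H)}

theorem dense_Mxi (h : Std M ξ ρ) (v : H) (ε : ℝ) (hε : 0 < ε) :
    ∃ u ∈ {u : H | ∃ a ∈ M, u = a ξ}, ‖v - u‖ ≤ ε := by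
  obtain ⟨a, ha, hv⟩ := h.cyc v ε hε
  exact ⟨a ξ, ⟨a, ha, rfl⟩, hv⟩

theorem comm_apply (h : Std M ξ ρ) {a x : H →L[ℂ] H} (ha : a ∈ M) (hx : x ∈ M) :
    x (a ξ) = ρ a (x ξ) := by
  have h1 := h.comm a ha x hx
  have h2 : (ρ a * x) ξ = (x * ρ a) ξ := by rw [h1]
  have h3 : x (ρ a ξ) = ρ a (x ξ) := h2.symm
  rw [← h3, h.vec a ha]

/-- Vigier's theorem in standard form: a supremum of a directed set is a strong limit. -/
theorem nrm (h : Std M ξ ρ) (D : Set (Elt M)) (s : Elt M) (hsa : ∀ x ∈ D, star x = x)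
    (hs : star s = s) (hdir : ∀ x ∈ D, ∀ y ∈ D, ∃ z ∈ D, SLe x z ∧ SLe y z) (hsup : IsSup D s)
    (ε : ℝ) (hε : 0 < ε) (d : Elt M) (hd : d ∈ D) :
    ∃ x ∈ D, SLe d x ∧ ‖((s : H →L[ℂ] H) - (x : H →L[ℂ] H)) ξ‖ ≤ ε := by
  classical
  obtain ⟨τ, hτ⟩ : ∃ τ : Elt M → ℝ, τ = fun x : Elt M => (⟪ξ, (x : H →L[ℂ] H) ξ⟫_ℂ).re := ⟨_, rfl⟩
  have τsub : ∀ x y : Elt M, (⟪ξ, ((y : H →L[ℂ] H) - (x : H →L[ℂ] H)) ξ⟫_ℂ).re = τ y - τ x := by
    intro x y
    rw [hτ]
    simp [inner_sub_right]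
  have τmono : ∀ x y : Elt M, SLe x y → τ x ≤ τ y := by
    intro x y hxy
    have := re_nonneg ((sle_iff x y).1 hxy) ξ
    rw [τsub] at this
    linarith
  obtain ⟨D', hD'⟩ : ∃ D' : Set (Elt M), D' = {x | x ∈ D ∧ SLe d x} := ⟨_, rfl⟩
  have hdD' : d ∈ D' := by rw [hD']; exact ⟨hd, sle_refl d⟩
  have hmem : ∀ x ∈ D', x ∈ D ∧ SLe d x := fun x hx => by rw [hD'] at hx; exact hx
  have hdir' : ∀ x y : D', ∃ z : D', SLe (x : Elt M) z ∧ SLe (y : Elt M) z := by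
    rintro ⟨x, hx⟩ ⟨y, hy⟩
    rw [hD'] at hx hy
    obtain ⟨z, hz, h1, h2⟩ := hdir x hx.1 y hy.1
    exact ⟨⟨z, by rw [hD']; exact ⟨hz, sle_trans hx.2 h1⟩⟩, h1, h2⟩
  have hle : ∀ x : D', SLe (x : Elt M) s := by
    rintro ⟨x, hx⟩
    rw [hD'] at hx
    exact hsup.1 x hx.1
  have hne : (τ '' D').Nonempty := ⟨τ d, d, hdD', rfl⟩
  have hbdd : BddAbove (τ '' D') := by
    refine ⟨τ s, ?_⟩
    rintro _ ⟨x, hx, rfl⟩
    exact τmono x s (hle ⟨x, hx⟩)
  obtain ⟨T, hT⟩ : ∃ T, T = sSup (τ '' D') := ⟨_, rfl⟩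
  have hTle : ∀ x : D', τ x ≤ T := fun x => by
    rw [hT]; exact le_csSup hbdd ⟨x, x.2, rfl⟩
  have hex : ∀ n : ℕ, ∃ x : D', T - 1 / ((n : ℝ) + 1) < τ x := by
    intro n
    obtain ⟨_, ⟨x, hx, rfl⟩, hlt⟩ := exists_lt_of_lt_csSup hne
      (show T - 1 / ((n : ℝ) + 1) < sSup (τ '' D') by
        rw [← hT]
        have : 0 < 1 / ((n : ℝ) + 1) := by positivity
        linarith)
    exact ⟨⟨x, hx⟩, hlt⟩
  choose x₀ hx₀ using hex
  choose J hJ1 hJ2 using hdir'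
  obtain ⟨y, hy0, hyS⟩ : ∃ y : ℕ → D', y 0 = x₀ 0 ∧ ∀ n, y (n + 1) = J (y n) (x₀ (n + 1)) :=
    ⟨fun n => Nat.rec (x₀ 0) (fun n yn => J yn (x₀ (n + 1))) n, rfl, fun n => rfl⟩
  have hyT : ∀ n : ℕ, T - 1 / ((n : ℝ) + 1) < τ (y n) := by
    intro n
    cases n with
    | zero => rw [hy0]; exact hx₀ 0
    | succ n =>
      rw [hyS]
      exact (hx₀ (n + 1)).trans_le (τmono _ _ (hJ2 _ _))
  have hymono : ∀ n m, n ≤ m → SLe (y n : Elt M) (y m) := by
    intro n m hnm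
    induction m, hnm using Nat.le_induction with
    | base => exact sle_refl _
    | succ m _ ih =>
      rw [hyS]
      exact sle_trans ih (hJ1 _ _)
  -- norm bounds
  obtain ⟨C, hC⟩ : ∃ C, C = ‖(s : H →L[ℂ] H) - (d : H →L[ℂ] H)‖ := ⟨_, rfl⟩
  have hC0 : 0 ≤ C := by rw [hC]; exact norm_nonneg _
  have hnb : ∀ a b : D', SLe (a : Elt M) b →
      ‖((b : Elt M) : H →L[ℂ] H) - ((a : Elt M) : H →L[ℂ] H)‖ ≤ C := by
    intro a b hab
    rw [hC]
    have h1 := (sle_iff _ _).1 hab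
    have h2 := (sle_iff _ _).1 (hle b)
    have h3 : SLe d (a : Elt M) := (hmem _ a.2).2
    have h4 := (sle_iff _ _).1 h3
    apply CStarAlgebra.norm_le_norm_of_nonneg_of_le h1
    rw [← sub_nonneg]
    have h5 := add_nonneg h2 h4
    convert h5 using 1
    abel
  have hsb : ∀ a b : D', SLe (a : Elt M) b →
      ‖(((b : Elt M) : H →L[ℂ] H) - ((a : Elt M) : H →L[ℂ] H)) ξ‖ ^ 2 ≤ C * (T - τ a) := by
    intro a b hab
    have h1 := norm_sq_le ((sle_iff _ _).1 hab) ξ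
    rw [τsub] at h1
    refine h1.trans ?_
    have h2 := τmono _ _ hab
    have h3 := hTle b
    apply mul_le_mul (hnb a b hab) (by linarith) (by linarith) hC0
  -- convergence at the vector
  have hcau : CauchySeq fun n => ((y n : Elt M) : H →L[ℂ] H) ξ := by
    rw [Metric.cauchySeq_iff']
    intro ε hε
    obtain ⟨N, hN⟩ := exists_nat_gt (C / ε ^ 2)
    refine ⟨N, fun n hn => ?_⟩
    have h1 := hsb (y N) (y n) (hymono N n hn)
    rw [dist_eq_norm]
    have h2 : C * (T - τ (y N)) < ε ^ 2 := by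
      have h3 := hyT N
      have h4 : T - τ (y N) < 1 / ((N : ℝ) + 1) := by linarith
      have h5 : C / ε ^ 2 < (N : ℝ) + 1 := by linarith
      rw [div_lt_iff₀ (by positivity)] at h5
      have h6 : C * (1 / ((N : ℝ) + 1)) < ε ^ 2 := by
        rw [mul_one_div, div_lt_iff₀ (by positivity)]
        linarith
      have h7 : C * (T - τ (y N)) ≤ C * (1 / ((N : ℝ) + 1)) :=
        mul_le_mul_of_nonneg_left h4.le hC0
      linarith
    have h3 : ‖(((y n : Elt M) : H →L[ℂ] H) - ((y N : Elt M) : H →L[ℂ] H)) ξ‖ ^ 2 < ε ^ 2 :=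
      h1.trans_lt h2
    exact lt_of_pow_lt_pow_left₀ 2 hε.le h3
  have hyB : ∀ n, ‖((y n : Elt M) : H →L[ℂ] H)‖ ≤ C + ‖(d : H →L[ℂ] H)‖ := by
    intro n
    have h1 : SLe d (y n : Elt M) := (hmem _ (y n).2).2
    have h2 := hnb ⟨d, hdD'⟩ (y n) h1
    have h3 : ((y n : Elt M) : H →L[ℂ] H) =
        (((y n : Elt M) : H →L[ℂ] H) - (d : H →L[ℂ] H)) + (d : H →L[ℂ] H) := by abel
    rw [h3]
    exact (norm_add_le _ _).trans (by gcongr)
  obtain ⟨t, ht⟩ := strong_limit (fun n => ((y n : Elt M) : H →L[ℂ] H)) _ hyB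
    {u : H | ∃ a ∈ M, u = a ξ} (fun v ε hε => dense_Mxi h v ε hε) (by
      rintro _ ⟨a, ha, rfl⟩
      have h1 : (fun n => ((y n : Elt M) : H →L[ℂ] H) (a ξ)) =
          fun n => ρ a (((y n : Elt M) : H →L[ℂ] H) ξ) :=
        funext fun n => comm_apply h ha (y n : Elt M).2
      rw [h1]
      exact (ρ a).uniformContinuous.comp_cauchySeq hcau)
  have htM : t ∈ M := by
    rw [← VonNeumannAlgebra.commutant_commutant M, VonNeumannAlgebra.mem_commutant_iff]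
    intro g hg
    rw [VonNeumannAlgebra.mem_commutant_iff] at hg
    ext v
    have h1 : Tendsto (fun n => g (((y n : Elt M) : H →L[ℂ] H) v)) atTop (𝓝 (g (t v))) :=
      (g.continuous.tendsto _).comp (ht v)
    have h2 : Tendsto (fun n => ((y n : Elt M) : H →L[ℂ] H) (g v)) atTop (𝓝 (t (g v))) := ht (g v)
    refine tendsto_nhds_unique h1 (h2.congr fun n => ?_)
    have h3 := hg _ (y n : Elt M).2
    exact congrArg (fun T : H →L[ℂ] H => T v) h3
  -- t is selfadjoint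
  have hyn : ∀ n, star ((y n : Elt M) : H →L[ℂ] H) = ((y n : Elt M) : H →L[ℂ] H) := by
    intro n
    have h1 := hmem _ (y n).2
    exact congrArg (fun t : Elt M => (t : H →L[ℂ] H)) (hsa _ h1.1)
  have hstar : ∀ (A : H →L[ℂ] H), star A = A → ∀ u v : H, ⟪A u, v⟫_ℂ = ⟪u, A v⟫_ℂ := by
    intro A hA u v
    rw [← ContinuousLinearMap.adjoint_inner_right, ← ContinuousLinearMap.star_eq_adjoint, hA]
  have hts : star t = t := by
    rw [ContinuousLinearMap.star_eq_adjoint]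
    symm
    rw [ContinuousLinearMap.eq_adjoint_iff]
    intro u v
    have h1 : Tendsto (fun n => ⟪((y n : Elt M) : H →L[ℂ] H) u, v⟫_ℂ) atTop (𝓝 ⟪t u, v⟫_ℂ) :=
      (ht u).inner tendsto_const_nhds
    have h2 : Tendsto (fun n => ⟪u, ((y n : Elt M) : H →L[ℂ] H) v⟫_ℂ) atTop (𝓝 ⟪u, t v⟫_ℂ) :=
      tendsto_const_nhds.inner (ht v)
    refine tendsto_nhds_unique h1 (h2.congr fun n => ?_)
    exact (hstar _ (hyn n) u v).symm
  -- positivity of limits
  have hlim : ∀ A : H →L[ℂ] H, star A = A → (∀ a ∈ M, 0 ≤ (⟪a ξ, A (a ξ)⟫_ℂ).re) → 0 ≤ A := by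
    intro A hA hpos
    rw [nonneg_iff]
    refine ⟨hA, fun v => ?_⟩
    have hcl : v ∈ closure {u : H | ∃ a ∈ M, u = a ξ} := by
      rw [Metric.mem_closure_iff]
      intro ε hε
      obtain ⟨u, hu, hvu⟩ := dense_Mxi h v (ε / 2) (by positivity)
      exact ⟨u, hu, by rw [dist_eq_norm]; linarith⟩
    have hclosed : IsClosed {v : H | 0 ≤ (⟪v, A v⟫_ℂ).re} :=
      isClosed_le continuous_const (Complex.continuous_re.comp (by fun_prop))
    have : closure {u : H | ∃ a ∈ M, u = a ξ} ⊆ {v : H | 0 ≤ (⟪v, A v⟫_ℂ).re} :=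
      closure_minimal (by rintro _ ⟨a, ha, rfl⟩; exact hpos a ha) hclosed
    exact this hcl
  -- t is an upper bound of D
  have hub : ∀ x ∈ D, SLe x (⟨t, htM⟩ : Elt M) := by
    intro x hx
    rw [sle_iff]
    apply hlim
    · rw [star_sub, hts]
      have h1 := congrArg (fun t : Elt M => (t : H →L[ℂ] H)) (hsa _ hx)
      show t - star (x : H →L[ℂ] H) = t - x
      rw [show star (x : H →L[ℂ] H) = x from h1]
    · intro a ha
      -- choose z n above x and y n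
      have hz : ∀ n, ∃ z : D', SLe x (z : Elt M) ∧ SLe (y n : Elt M) z := by
        intro n
        have h1 := hmem _ (y n).2
        obtain ⟨z, hzD, h2, h3⟩ := hdir x hx _ h1.1
        exact ⟨⟨z, by rw [hD']; exact ⟨hzD, sle_trans h1.2 h3⟩⟩, h2, h3⟩
      choose z hz1 hz2 using hz
      have h1 : Tendsto (fun n => (((z n : Elt M) : H →L[ℂ] H) -
          ((y n : Elt M) : H →L[ℂ] H)) ξ) atTop (𝓝 0) := by
        rw [tendsto_zero_iff_norm_tendsto_zero]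
        have h2 : Tendsto (fun n : ℕ => Real.sqrt (C * (1 / ((n : ℝ) + 1)))) atTop (𝓝 0) := by
          have h3 : Tendsto (fun n : ℕ => C * (1 / ((n : ℝ) + 1))) atTop (𝓝 (C * 0)) :=
            tendsto_const_nhds.mul tendsto_one_div_add_atTop_nhds_zero_nat
          have h4 := (Real.continuous_sqrt.tendsto _).comp h3
          rw [mul_zero, Real.sqrt_zero] at h4
          exact h4
        refine squeeze_zero (fun n => norm_nonneg _) (fun n => ?_) h2
        apply Real.le_sqrt_of_sq_le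
        refine (hsb _ _ (hz2 n)).trans ?_
        apply mul_le_mul_of_nonneg_left _ hC0
        have := hyT n
        linarith
      have h2 : Tendsto (fun n => ((z n : Elt M) : H →L[ℂ] H) ξ) atTop (𝓝 (t ξ)) := by
        have h3 := h1.add (ht ξ)
        rw [zero_add] at h3
        refine h3.congr fun n => ?_
        simp
      have h3 : Tendsto (fun n => ((z n : Elt M) : H →L[ℂ] H) (a ξ)) atTop (𝓝 (t (a ξ))) := by
        rw [comm_apply h ha htM]
        refine (((ρ a).continuous.tendsto _).comp h2).congr fun n => ?_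
        exact (comm_apply h ha (z n : Elt M).2).symm
      have h4 : Tendsto (fun n => (⟪a ξ, (((z n : Elt M) : H →L[ℂ] H) -
          (x : H →L[ℂ] H)) (a ξ)⟫_ℂ).re) atTop (𝓝 (⟪a ξ, (t - (x : H →L[ℂ] H)) (a ξ)⟫_ℂ).re) := by
        apply (Complex.continuous_re.tendsto _).comp
        apply Tendsto.inner tendsto_const_nhds
        exact h3.sub_const _
      refine ge_of_tendsto' h4 fun n => ?_
      exact re_nonneg ((sle_iff _ _).1 (hz1 n)) (a ξ)
  have hst : SLe s (⟨t, htM⟩ : Elt M) := hsup.2 _ (Subtype.ext hts) hub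
  have hss : star (s : H →L[ℂ] H) = s := congrArg (fun t : Elt M => (t : H →L[ℂ] H)) hs
  have h1 : 0 ≤ t - (s : H →L[ℂ] H) := (sle_iff _ _).1 hst
  have h2 : 0 ≤ (s : H →L[ℂ] H) - t := by
    apply hlim
    · rw [star_sub, hts, hss]
    · intro a ha
      have h4 : Tendsto (fun n => (⟪a ξ, ((s : H →L[ℂ] H) - ((y n : Elt M) : H →L[ℂ] H)) (a ξ)⟫_ℂ).re)
          atTop (𝓝 (⟪a ξ, ((s : H →L[ℂ] H) - t) (a ξ)⟫_ℂ).re) := by
        apply (Complex.continuous_re.tendsto _).comp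
        apply Tendsto.inner tendsto_const_nhds
        exact (ht (a ξ)).const_sub _
      refine ge_of_tendsto' h4 fun n => ?_
      exact re_nonneg ((sle_iff _ _).1 (hle (y n))) (a ξ)
  have hteq : t = (s : H →L[ℂ] H) := le_antisymm (sub_nonneg.1 h2) (sub_nonneg.1 h1)
  have h5 := ht ξ
  rw [hteq] at h5
  obtain ⟨N, hN⟩ := Metric.tendsto_atTop.1 h5 ε hε
  have h6 := hN N le_rfl
  have h7 := hmem _ (y N).2
  refine ⟨y N, h7.1, h7.2, ?_⟩
  rw [dist_comm, dist_eq_norm] at h6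
  exact h6.le

end nrm

end Pool.Agent.W621.KKS
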