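import Mathlib
import Pool.Agent.W621.KKS.Kol
import Pool.Agent.W621.KKS.Nrm

set_option autoImplicit false
set_option linter.unusedSectionVars false

open scoped InnerProductSpace ComplexConjugate
open Filter Topology Pool.Agent.Helper278 Pool.Agent.W662.KKS

namespace Pool.Agent.W621.KKS

variable {H : Type} [NormedAddCommGroup H] [InnerProductSpace ℂ H] [CompleteSpace H]
variable {M : VonNeumannAlgebra H} {ξ : H} {ρ : (H →L[ℂ] H) → (H →L[ℂ] H)}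
variable {K : Type} [NormedAddCommGroup K] [InnerProductSpace ℂ K] [CompleteSpace K]

/-- a criterion for normality of representations -/
theorem normal_of (h : Std M ξ ρ) (L : Elt M → (K →L[ℂ] K))
    (hsub : ∀ x y, L (x - y) = L x - L y) (hn : ∀ x : Elt M, ‖L x‖ ≤ ‖(x : H →L[ℂ] H)‖)
    (hpos : ∀ z : Elt M, ∀ ζ : K, 0 ≤ (⟪ζ, L (star z * z) ζ⟫_ℂ).re)
    {ι : Type} (v : ι → K) (hv : DenseRange (Finsupp.linearCombination ℂ v))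
    (hb : ∀ i j, ∃ C : ℝ, ∀ x : Elt M, ‖⟪v i, L x (v j)⟫_ℂ‖ ≤ C * ‖(x : H →L[ℂ] H) ξ‖)
    (D : Set (Elt M)) (s : Elt M) (hne : D.Nonempty) (hsa : ∀ x ∈ D, star x = x)
    (hs : star s = s) (hdir : ∀ x ∈ D, ∀ y ∈ D, ∃ z ∈ D, SLe x z ∧ SLe y z) (hsup : IsSup D s)
    (ζ : K) : IsLUB ((fun x => (⟪ζ, L x ζ⟫_ℂ).re) '' D) (⟪ζ, L s ζ⟫_ℂ).re := by
  classical
  have hre : ∀ x y : Elt M, (⟪ζ, L (y - x) ζ⟫_ℂ).re = (⟪ζ, L y ζ⟫_ℂ).re - (⟪ζ, L x ζ⟫_ℂ).re := by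
    intro x y
    rw [hsub]
    simp [inner_sub_right]
  have hmono : ∀ x y : Elt M, SLe x y → (⟪ζ, L x ζ⟫_ℂ).re ≤ (⟪ζ, L y ζ⟫_ℂ).re := by
    rintro x y ⟨z, hz⟩
    have h1 := hpos z ζ
    rw [← hz, hre] at h1
    linarith
  refine ⟨?_, ?_⟩
  · rintro _ ⟨x, hx, rfl⟩
    exact hmono _ _ (hsup.1 x hx)
  · intro b hb'
    obtain ⟨d, hd⟩ := hne
    refine le_of_forall_pos_le_add fun ε hε => ?_
    obtain ⟨C, hC⟩ : ∃ C, C = ‖(s : H →L[ℂ] H) - (d : H →L[ℂ] H)‖ := ⟨_, rfl⟩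
    have hC0 : 0 ≤ C := by rw [hC]; exact norm_nonneg _
    -- approximate the vector
    obtain ⟨δ, hδ, hδ1⟩ : ∃ δ : ℝ, 0 < δ ∧ C * (2 * ‖ζ‖ + 1) * δ ≤ ε / 2 ∧ δ ≤ 1 := by
      have hp : 0 < C * (2 * ‖ζ‖ + 1) + 1 := by positivity
      refine ⟨min 1 (ε / 2 / (C * (2 * ‖ζ‖ + 1) + 1)), by positivity, ?_, min_le_left _ _⟩
      calc C * (2 * ‖ζ‖ + 1) * min 1 (ε / 2 / (C * (2 * ‖ζ‖ + 1) + 1))
          ≤ (C * (2 * ‖ζ‖ + 1) + 1) * (ε / 2 / (C * (2 * ‖ζ‖ + 1) + 1)) := by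
            apply mul_le_mul (by linarith) (min_le_right _ _) (by positivity) hp.le
        _ = ε / 2 := by field_simp
    obtain ⟨c, hc⟩ := hv.exists_dist_lt ζ hδ
    obtain ⟨ζ', hζ'⟩ : ∃ ζ', ζ' = Finsupp.linearCombination ℂ v c := ⟨_, rfl⟩
    rw [← hζ', dist_eq_norm] at hc
    obtain ⟨B, hB0, hB⟩ : ∃ B : ℝ, 0 ≤ B ∧ ∀ x : Elt M,
        ‖⟪ζ', L x ζ'⟫_ℂ‖ ≤ B * ‖(x : H →L[ℂ] H) ξ‖ := by
      choose A hA using hb
      refine ⟨∑ i ∈ c.support, ∑ j ∈ c.support, ‖c i‖ * ‖c j‖ * |A i j|, by positivity, ?_⟩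
      intro x
      rw [hζ', Finsupp.linearCombination_apply, Finsupp.sum, map_sum, sum_inner]
      refine (norm_sum_le _ _).trans ?_
      rw [Finset.sum_mul]
      refine Finset.sum_le_sum fun i _ => ?_
      rw [inner_sum]
      refine (norm_sum_le _ _).trans ?_
      rw [Finset.sum_mul]
      refine Finset.sum_le_sum fun j _ => ?_
      rw [map_smul, inner_smul_left, inner_smul_right, norm_mul, norm_mul, RCLike.norm_conj]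
      have h1 : ‖⟪v i, L x (v j)⟫_ℂ‖ ≤ |A i j| * ‖(x : H →L[ℂ] H) ξ‖ :=
        (hA i j x).trans (mul_le_mul_of_nonneg_right (le_abs_self _) (norm_nonneg _))
      calc ‖c i‖ * (‖c j‖ * ‖⟪v i, L x (v j)⟫_ℂ‖)
          ≤ ‖c i‖ * (‖c j‖ * (|A i j| * ‖(x : H →L[ℂ] H) ξ‖)) := by gcongr
        _ = _ := by ring
    obtain ⟨x, hx, hdx, hxs⟩ := nrm h D s hsa hs hdir hsup (ε / 2 / (B + 1)) (by positivity) d hd
    have hn1 : ‖(s : H →L[ℂ] H) - (x : H →L[ℂ] H)‖ ≤ C := by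
      rw [hC]
      have h1 := (sle_iff _ _).1 (hsup.1 x hx)
      have h2 := (sle_iff _ _).1 hdx
      apply CStarAlgebra.norm_le_norm_of_nonneg_of_le h1
      rw [← sub_nonneg]
      convert h2 using 1
      abel
    have hn2 : ‖L (s - x)‖ ≤ C := (hn _).trans hn1
    have h3 : ‖⟪ζ', L (s - x) ζ'⟫_ℂ‖ ≤ ε / 2 := by
      refine (hB _).trans ?_
      calc B * ‖((s - x : Elt M) : H →L[ℂ] H) ξ‖ ≤ (B + 1) * (ε / 2 / (B + 1)) := by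
            apply mul_le_mul (by linarith) hxs (norm_nonneg _) (by linarith)
        _ = ε / 2 := by field_simp
    have h4 : ⟪ζ, L (s - x) ζ⟫_ℂ = ⟪ζ', L (s - x) ζ'⟫_ℂ + (⟪ζ - ζ', L (s - x) ζ⟫_ℂ
        + ⟪ζ', L (s - x) (ζ - ζ')⟫_ℂ) := by
      rw [map_sub, inner_sub_left, inner_sub_right]
      ring
    have hζn : ‖ζ'‖ ≤ ‖ζ‖ + 1 := by
      have : ζ' = ζ - (ζ - ζ') := by abel
      rw [this]
      refine (norm_sub_le _ _).trans ?_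
      linarith [hδ1.2]
    have h5 : ‖⟪ζ - ζ', L (s - x) ζ⟫_ℂ + ⟪ζ', L (s - x) (ζ - ζ')⟫_ℂ‖ ≤ ε / 2 := by
      refine (norm_add_le _ _).trans ?_
      have h6 : ‖⟪ζ - ζ', L (s - x) ζ⟫_ℂ‖ ≤ δ * (C * ‖ζ‖) := by
        refine (norm_inner_le_norm _ _).trans ?_
        apply mul_le_mul hc.le _ (norm_nonneg _) hδ.le
        exact ((L (s - x)).le_opNorm _).trans (by gcongr)
      have h7 : ‖⟪ζ', L (s - x) (ζ - ζ')⟫_ℂ‖ ≤ (‖ζ‖ + 1) * (C * δ) := by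
        refine (norm_inner_le_norm _ _).trans ?_
        apply mul_le_mul hζn _ (norm_nonneg _) (by positivity)
        refine ((L (s - x)).le_opNorm _).trans ?_
        apply mul_le_mul hn2 hc.le (norm_nonneg _) hC0
      calc _ ≤ δ * (C * ‖ζ‖) + (‖ζ‖ + 1) * (C * δ) := add_le_add h6 h7
        _ = C * (2 * ‖ζ‖ + 1) * δ := by ring
        _ ≤ ε / 2 := hδ1.1
    have h8 : (⟪ζ, L (s - x) ζ⟫_ℂ).re ≤ ε := by
      rw [h4, Complex.add_re]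
      have h9 := (Complex.re_le_norm ⟪ζ', L (s - x) ζ'⟫_ℂ).trans h3
      have h10 := (Complex.re_le_norm (⟪ζ - ζ', L (s - x) ζ⟫_ℂ +
        ⟪ζ', L (s - x) (ζ - ζ')⟫_ℂ)).trans h5
      linarith
    rw [hre] at h8
    have h11 : (⟪ζ, L x ζ⟫_ℂ).re ≤ b := hb' ⟨x, hx, rfl⟩
    linarith

end Pool.Agent.W621.KKS
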