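import Mathlib
import Pool.Agent.W621.KKS.Nrm

set_option autoImplicit false
set_option linter.unusedSectionVars false

open scoped InnerProductSpace ComplexConjugate
open Filter Topology Pool.Agent.Helper278 Pool.Agent.W662.KKS

namespace Pool.Agent.W621.KKS

variable {H : Type} [NormedAddCommGroup H] [InnerProductSpace ℂ H] [CompleteSpace H]

/-- `e` is the projection onto the closure of `S ξ`, for a star subalgebra `S` of `M` -/
structure Pr (M : VonNeumannAlgebra H) (ξ : H) (S : StarSubalgebra ℂ (H →L[ℂ] H))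
    (e : H →L[ℂ] H) : Prop where
  sub : ∀ a ∈ S, a ∈ M
  sa : star e = e
  idem : e * e = e
  fix : ∀ a ∈ S, e (a ξ) = a ξ
  app : ∀ v, ∀ ε : ℝ, 0 < ε → ∃ a ∈ S, ‖e v - a ξ‖ ≤ ε

section

variable {M : VonNeumannAlgebra H} {ξ : H} {ρ : (H →L[ℂ] H) → (H →L[ℂ] H)}
  {S : StarSubalgebra ℂ (H →L[ℂ] H)} {e : H →L[ℂ] H}

theorem exists_pr (M : VonNeumannAlgebra H) (ξ : H) (S : StarSubalgebra ℂ (H →L[ℂ] H))
    (hS : ∀ a ∈ S, a ∈ M) : ∃ e, Pr M ξ S e := by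
  let E₀ : Submodule ℂ H :=
    (Subalgebra.toSubmodule S.toSubalgebra).map
      ((ContinuousLinearMap.apply ℂ H ξ : (H →L[ℂ] H) →L[ℂ] H) : (H →L[ℂ] H) →ₗ[ℂ] H)
  have hE₀ : ∀ v, v ∈ E₀ ↔ ∃ a ∈ S, a ξ = v := by
    intro v
    simp only [E₀, Submodule.mem_map]
    rfl
  let E := E₀.topologicalClosure
  have hmem : ∀ a ∈ S, a ξ ∈ E := fun a ha =>
    Submodule.le_topologicalClosure _ ((hE₀ _).2 ⟨a, ha, rfl⟩)
  refine ⟨E.starProjection, hS, ?_, ?_, ?_, ?_⟩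
  · exact isSelfAdjoint_starProjection E
  · exact Submodule.isIdempotentElem_starProjection E
  · intro a ha
    exact Submodule.starProjection_eq_self_iff.2 (hmem a ha)
  · intro v ε hε
    have h1 : E.starProjection v ∈ closure (E₀ : Set H) := Submodule.starProjection_apply_mem E v
    obtain ⟨u, hu, hvu⟩ := Metric.mem_closure_iff.1 h1 ε hε
    obtain ⟨a, ha, rfl⟩ := (hE₀ u).1 hu
    exact ⟨a, ha, by rw [← dist_eq_norm]; exact hvu.le⟩

theorem seq (p : Pr M ξ S e) (v : H) (hv : e v = v) :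
    ∃ a : ℕ → (H →L[ℂ] H), (∀ n, a n ∈ S) ∧ Tendsto (fun n => a n ξ) atTop (𝓝 v) := by
  have h1 : ∀ n : ℕ, ∃ a ∈ S, ‖e v - a ξ‖ ≤ 1 / ((n : ℝ) + 1) := fun n =>
    p.app v _ (by positivity)
  choose a ha hav using h1
  refine ⟨a, ha, ?_⟩
  rw [tendsto_iff_norm_sub_tendsto_zero]
  refine squeeze_zero (fun n => norm_nonneg _) (fun n => ?_)
    tendsto_one_div_add_atTop_nhds_zero_nat
  have := hav n
  rw [hv] at this
  rw [norm_sub_rev]
  exact this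

theorem ee (p : Pr M ξ S e) (v : H) : e (e v) = e v :=
  congrArg (fun T : H →L[ℂ] H => T v) p.idem

theorem half_comm (p : Pr M ξ S e) (T : H →L[ℂ] H) (hT : ∀ b ∈ S, e (T (b ξ)) = T (b ξ)) :
    e * T * e = T * e := by
  ext v
  show e (T (e v)) = T (e v)
  obtain ⟨a, ha, hav⟩ := seq p (e v) (ee p v)
  have h1 : Tendsto (fun n => e (T (a n ξ))) atTop (𝓝 (e (T (e v)))) :=
    ((e.continuous.comp T.continuous).tendsto _).comp hav
  have h2 : Tendsto (fun n => T (a n ξ)) atTop (𝓝 (T (e v))) := (T.continuous.tendsto _).comp hav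
  exact tendsto_nhds_unique h1 (h2.congr fun n => (hT _ (ha n)).symm)

theorem full_comm (p : Pr M ξ S e) (T : H →L[ℂ] H) (hT : ∀ b ∈ S, e (T (b ξ)) = T (b ξ))
    (hT' : ∀ b ∈ S, e (star T (b ξ)) = star T (b ξ)) : e * T = T * e := by
  have h1 := half_comm p T hT
  have h2 := congrArg star (half_comm p (star T) hT')
  rw [star_mul, star_mul, star_mul, star_star, p.sa, ← mul_assoc] at h2
  rw [← h1, h2]

theorem comm_left (p : Pr M ξ S e) {a : H →L[ℂ] H} (ha : a ∈ S) : e * a = a * e :=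
  full_comm p a (fun b hb => p.fix (a * b) (mul_mem ha hb))
    (fun b hb => p.fix (star a * b) (mul_mem (star_mem ha) hb))

theorem comm_right (h : Std M ξ ρ) (p : Pr M ξ S e) {a : H →L[ℂ] H} (ha : a ∈ S) :
    e * ρ a = ρ a * e := by
  have key : ∀ c ∈ S, ∀ b ∈ S, e (ρ c (b ξ)) = ρ c (b ξ) := by
    intro c hc b hb
    rw [← comm_apply h (p.sub c hc) (p.sub b hb)]
    exact p.fix (b * c) (mul_mem hb hc)
  refine full_comm p (ρ a) (key a ha) ?_
  rw [← h.stm a (p.sub a ha)]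
  exact key _ (star_mem ha)

theorem norm_star_xi (h : Std M ξ ρ) {a : H →L[ℂ] H} (ha : a ∈ M) : ‖star a ξ‖ = ‖a ξ‖ := by
  have h1 : ∀ b : H →L[ℂ] H, ‖b ξ‖ ^ 2 = (⟪ξ, (star b) (b ξ)⟫_ℂ).re := by
    intro b
    rw [ContinuousLinearMap.star_eq_adjoint, ContinuousLinearMap.adjoint_inner_right,
      inner_self_eq_norm_sq_to_K]
    norm_cast
  have h2 : ‖star a ξ‖ ^ 2 = ‖a ξ‖ ^ 2 := by
    rw [h1, h1, star_star, h.tr a ha (star a) (star_mem ha)]
  exact (sq_eq_sq₀ (norm_nonneg _) (norm_nonneg _)).1 h2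

theorem norm_adj_le (h : Std M ξ ρ) (p : Pr M ξ S e) (c : H →L[ℂ] H)
    (hc : ∀ a ∈ S, c * ρ a = ρ a * c) (hf : e (star c ξ) = star c ξ) :
    ‖star c ξ‖ ≤ ‖c ξ‖ := by
  obtain ⟨a, ha, hav⟩ := seq p _ hf
  obtain ⟨u, hu⟩ : ∃ u, u = star c ξ := ⟨_, rfl⟩
  rw [← hu] at hav ⊢
  have h1 : Tendsto (fun n => ‖⟪u, a n ξ⟫_ℂ‖) atTop (𝓝 ‖⟪u, u⟫_ℂ‖) :=
    (tendsto_const_nhds.inner hav).norm
  have h2 : Tendsto (fun n => ‖a n ξ‖ * ‖c ξ‖) atTop (𝓝 (‖u‖ * ‖c ξ‖)) :=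
    hav.norm.mul tendsto_const_nhds
  have h3 : ∀ n, ‖⟪u, a n ξ⟫_ℂ‖ ≤ ‖a n ξ‖ * ‖c ξ‖ := by
    intro n
    have haM := p.sub _ (ha n)
    rw [hu, ContinuousLinearMap.star_eq_adjoint, ContinuousLinearMap.adjoint_inner_left]
    have e1 : c (a n ξ) = ρ (a n) (c ξ) := by
      rw [← h.vec _ haM]
      exact congrArg (fun T : H →L[ℂ] H => T ξ) (hc _ (ha n))
    have e2 : ⟪ξ, ρ (a n) (c ξ)⟫_ℂ = ⟪star (a n) ξ, c ξ⟫_ℂ := by
      rw [← h.vec _ (star_mem haM), h.stm _ haM, ContinuousLinearMap.star_eq_adjoint,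
        ContinuousLinearMap.adjoint_inner_left]
    rw [e1, e2]
    refine (norm_inner_le_norm _ _).trans ?_
    rw [norm_star_xi h haM]
  have h4 := le_of_tendsto_of_tendsto' h1 h2 h3
  have h5 : ‖⟪u, u⟫_ℂ‖ = ‖u‖ * ‖u‖ := by
    rw [inner_self_eq_norm_sq_to_K]
    simp [sq]
  rw [h5] at h4
  by_cases h6 : ‖u‖ = 0
  · rw [h6]; exact norm_nonneg _
  · exact le_of_mul_le_mul_left h4 (lt_of_le_of_ne (norm_nonneg _) (Ne.symm h6))

theorem base_id (h : Std M ξ ρ) {y y' a a' : H →L[ℂ] H} (hy : y ∈ M) (hy' : y' ∈ M)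
    (ha : a ∈ M) (ha' : a' ∈ M) :
    ⟪(y * star y') ξ, (star a' * a) ξ⟫_ℂ = ⟪ρ y (a' ξ), ρ y' (a ξ)⟫_ℂ := by
  rw [← comm_apply h hy ha', ← comm_apply h hy' ha]
  have e1 : ⟪a' (y ξ), a (y' ξ)⟫_ℂ = ⟪ξ, (star y * star a' * a) (y' ξ)⟫_ℂ := by
    show _ = ⟪ξ, (star y) ((star a') (a (y' ξ)))⟫_ℂ
    rw [ContinuousLinearMap.star_eq_adjoint, ContinuousLinearMap.star_eq_adjoint,
      ContinuousLinearMap.adjoint_inner_right, ContinuousLinearMap.adjoint_inner_right]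
  have e2 : ⟪(y * star y') ξ, (star a' * a) ξ⟫_ℂ = ⟪ξ, y' ((star y * star a' * a) ξ)⟫_ℂ := by
    have e3 : (y * star y') = star (y' * star y) := by rw [star_mul, star_star]
    rw [e3, ContinuousLinearMap.star_eq_adjoint, ContinuousLinearMap.adjoint_inner_left]
    simp only [mul_assoc]
    rfl
  rw [e1, e2]
  exact h.tr y' hy' _ (mul_mem (mul_mem (star_mem hy) (star_mem ha')) ha)

theorem star_id (h : Std M ξ ρ) (p : Pr M ξ S e) {y y' b b' : H →L[ℂ] H} (hy : y ∈ M)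
    (hy' : y' ∈ M) (hb' : ∀ a ∈ S, b' * ρ a = ρ a * b')
    (eb : e * b = b) (eb' : e * b' = b') (be' : b' * e = b') :
    ⟪(y * star y') ξ, (star b' * b) ξ⟫_ℂ = ⟪ρ y (b' ξ), ρ y' (b ξ)⟫_ℂ := by
  have e1 : e (b ξ) = b ξ := congrArg (fun T : H →L[ℂ] H => T ξ) eb
  have e2 : e (b' ξ) = b' ξ := congrArg (fun T : H →L[ℂ] H => T ξ) eb'
  have be'' : e * star b' = star b' := by
    have := congrArg star be'
    rw [star_mul, p.sa] at this
    exact this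
  have hsb' : ∀ a ∈ S, star b' * ρ a = ρ a * star b' := by
    intro a ha
    have := congrArg star (hb' (star a) (star_mem ha))
    rw [star_mul, star_mul, h.stm a (p.sub a ha), star_star] at this
    exact this.symm
  obtain ⟨a, ha, hal⟩ := seq p _ e1
  obtain ⟨a', ha', hal'⟩ := seq p _ e2
  have hst : Tendsto (fun n => star (a' n) ξ) atTop (𝓝 (star b' ξ)) := by
    rw [tendsto_iff_norm_sub_tendsto_zero] at hal' ⊢
    refine squeeze_zero (fun n => norm_nonneg _) (fun n => ?_) hal'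
    have h1 : star (a' n) ξ - star b' ξ = star (a' n - b') ξ := by
      rw [star_sub]; rfl
    have h2 : a' n ξ - b' ξ = (a' n - b') ξ := rfl
    rw [h1, h2]
    apply norm_adj_le h p
    · intro c hc
      rw [sub_mul, mul_sub, hb' c hc, h.comm c (p.sub c hc) _ (p.sub _ (ha' n))]
    · rw [star_sub]
      show e (star (a' n) ξ - star b' ξ) = star (a' n) ξ - star b' ξ
      rw [map_sub, p.fix _ (star_mem (ha' n))]
      congr 1
      exact congrArg (fun T : H →L[ℂ] H => T ξ) be''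
  -- first limit
  have s1 : ∀ n, ⟪(y * star y') ξ, star b' (a n ξ)⟫_ℂ = ⟪ρ y (b' ξ), ρ y' (a n ξ)⟫_ℂ := by
    intro n
    have haM := p.sub _ (ha n)
    have l1 : Tendsto (fun m => ⟪(y * star y') ξ, (star (a' m) * a n) ξ⟫_ℂ) atTop
        (𝓝 ⟪(y * star y') ξ, star b' (a n ξ)⟫_ℂ) := by
      have l2 : star b' (a n ξ) = ρ (a n) (star b' ξ) := by
        rw [← h.vec _ haM]
        exact congrArg (fun T : H →L[ℂ] H => T ξ) (hsb' _ (ha n))
      rw [l2]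
      refine tendsto_const_nhds.inner ?_
      refine (((ρ (a n)).continuous.tendsto _).comp hst).congr fun m => ?_
      exact (comm_apply h haM (star_mem (p.sub _ (ha' m)))).symm
    have l3 : Tendsto (fun m => ⟪ρ y (a' m ξ), ρ y' (a n ξ)⟫_ℂ) atTop
        (𝓝 ⟪ρ y (b' ξ), ρ y' (a n ξ)⟫_ℂ) :=
      Tendsto.inner (((ρ y).continuous.tendsto _).comp hal') tendsto_const_nhds
    exact tendsto_nhds_unique l1 (l3.congr fun m =>
      (base_id h hy hy' haM (p.sub _ (ha' m))).symm)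
  have l4 : Tendsto (fun n => ⟪(y * star y') ξ, star b' (a n ξ)⟫_ℂ) atTop
      (𝓝 ⟪(y * star y') ξ, (star b' * b) ξ⟫_ℂ) :=
    tendsto_const_nhds.inner (((star b').continuous.tendsto _).comp hal)
  have l5 : Tendsto (fun n => ⟪ρ y (b' ξ), ρ y' (a n ξ)⟫_ℂ) atTop
      (𝓝 ⟪ρ y (b' ξ), ρ y' (b ξ)⟫_ℂ) :=
    tendsto_const_nhds.inner (((ρ y').continuous.tendsto _).comp hal)
  exact tendsto_nhds_unique l4 (l5.congr fun n => (s1 n).symm)

end

end Pool.Agent.W621.KKS
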