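import Mathlib
import Pool.Agent.W621.KKS.Pr

set_option autoImplicit false
set_option linter.unusedSectionVars false

open scoped InnerProductSpace ComplexConjugate
open Filter Topology Pool.Agent.Helper278 Pool.Agent.W662.KKS

namespace Pool.Agent.W621.KKS

variable {H : Type} [NormedAddCommGroup H] [InnerProductSpace ℂ H] [CompleteSpace H]

/-- the square root of a positive operator -/
theorem sqrt_pack {K : Type} [NormedAddCommGroup K] [InnerProductSpace ℂ K] [CompleteSpace K]
    (T : K →L[ℂ] K) (hT : 0 ≤ T) : ∃ R : K →L[ℂ] K, R * R = T ∧ star R = R ∧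
      (∀ w, ‖R w‖ ^ 2 = (⟪w, T w⟫_ℂ).re) ∧ ∀ A : K →L[ℂ] K, T * A = A * T → R * A = A * R := by
  have hs : CFC.sqrt T * CFC.sqrt T = T := CFC.sqrt_mul_sqrt_self T hT
  have hsa : star (CFC.sqrt T) = CFC.sqrt T :=
    (IsSelfAdjoint.of_nonneg (CFC.sqrt_nonneg T)).star_eq
  refine ⟨CFC.sqrt T, hs, hsa, fun w => norm_sq_of (by rw [hsa, hs]) w, fun A hA => ?_⟩
  have h1 : Commute T A := hA
  exact h1.cfcₙ_nnreal NNReal.sqrt

section mat

variable (I : Type) [Fintype I] [DecidableEq I]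

/-- the Hilbert space `H^I` -/
abbrev HI (H : Type) [NormedAddCommGroup H] (I : Type) [Fintype I] : Type :=
  PiLp 2 (fun _ : I => H)

variable {I}

noncomputable def pj (i : I) : HI H I →L[ℂ] H := PiLp.proj (𝕜 := ℂ) 2 (fun _ : I => H) i

noncomputable def ij (i : I) : H →L[ℂ] HI H I := ContinuousLinearMap.adjoint (pj i)

theorem pj_apply (i : I) (w : HI H I) : pj i w = w i := rfl

theorem adj_ij (i : I) : ContinuousLinearMap.adjoint (ij (H := H) i) = pj i := by
  rw [ij, ContinuousLinearMap.adjoint_adjoint]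

theorem inner_HI (w w' : HI H I) : ⟪w, w'⟫_ℂ = ∑ i, ⟪w i, w' i⟫_ℂ := PiLp.inner_apply _ _

theorem pj_ij (i j : I) (u : H) : pj j (ij i u) = if i = j then u else 0 := by
  refine ext_inner_left ℂ fun w => ?_
  -- test against the single vector
  have h1 : ⟪(PiLp.single 2 j w : HI H I), ij i u⟫_ℂ = ⟪w, pj j (ij i u)⟫_ℂ := by
    rw [inner_HI, Finset.sum_eq_single j]
    · rw [PiLp.single_apply]
      simp [pj_apply]
    · intro b _ hb
      rw [PiLp.single_apply]
      simp [hb]
    · intro hj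
      exact absurd (Finset.mem_univ j) hj
  rw [← h1, ij, ContinuousLinearMap.adjoint_inner_right, pj_apply, PiLp.single_apply]
  by_cases hij : i = j
  · subst hij; simp
  · simp [hij]

theorem sum_ij (w : HI H I) : ∑ i, ij i (w i) = w := by
  have : ∀ j, (∑ i, ij i (w i)) j = w j := by
    intro j
    rw [← pj_apply, map_sum]
    simp only [pj_ij]
    rw [Finset.sum_ite_eq' Finset.univ j]
    simp
  exact PiLp.ext this

end mat

section posf

variable {M : VonNeumannAlgebra H} {ξ : H} {ρ : (H →L[ℂ] H) → (H →L[ℂ] H)}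
  {S : StarSubalgebra ℂ (H →L[ℂ] H)} {e : H →L[ℂ] H}

theorem posf (h : Std M ξ ρ) (p : Pr M ξ S e) {I : Type} [Fintype I] [DecidableEq I]
    (X : I → I → (H →L[ℂ] H)) (hsa : ∀ i j, star (X i j) = X j i)
    (hc : ∀ i j, ∀ a ∈ S, X i j * ρ a = ρ a * X i j) (he : ∀ i j, X i j * e = X i j)
    (hpos : ∀ w : I → H, 0 ≤ (∑ i, ∑ j, ⟪w i, X i j (w j)⟫_ℂ).re) :
    ∃ B : I → I → (H →L[ℂ] H), ∀ y : I → (H →L[ℂ] H), (∀ i, y i ∈ M) →
      ∑ i, ∑ j, ⟪(y i * star (y j)) ξ, X i j ξ⟫_ℂ =
        ((∑ l, ‖∑ j, ρ (y j) (B l j ξ)‖ ^ 2 : ℝ) : ℂ) := by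
  classical
  -- the operator on the direct sum
  obtain ⟨T, hT⟩ : ∃ T : HI H I →L[ℂ] HI H I, T = ∑ i, ∑ j, (ij i) ∘L (X i j) ∘L (pj j) :=
    ⟨_, rfl⟩
  have hTa : ∀ w : HI H I, T w = ∑ i, ∑ j, ij i (X i j (w j)) := by
    intro w
    rw [hT]
    simp only [sum_apply, ContinuousLinearMap.comp_apply, pj_apply]
  have hTi : ∀ (w : HI H I) (i : I), (T w) i = ∑ j, X i j (w j) := by
    intro w i
    rw [← pj_apply, hTa, map_sum, Finset.sum_eq_single i]
    · rw [map_sum]
      refine Finset.sum_congr rfl fun j _ => ?_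
      rw [pj_ij, if_pos rfl]
    · intro b _ hb
      rw [map_sum]
      refine Finset.sum_eq_zero fun j _ => ?_
      rw [pj_ij, if_neg hb]
    · intro hi
      exact absurd (Finset.mem_univ i) hi
  have hTinner : ∀ w w' : HI H I, ⟪w, T w'⟫_ℂ = ∑ i, ∑ j, ⟪w i, X i j (w' j)⟫_ℂ := by
    intro w w'
    rw [inner_HI]
    refine Finset.sum_congr rfl fun i _ => ?_
    rw [hTi, inner_sum]
  have hT0 : 0 ≤ T := by
    rw [nonneg_iff]
    constructor
    · rw [ContinuousLinearMap.star_eq_adjoint]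
      symm
      rw [ContinuousLinearMap.eq_adjoint_iff]
      intro w w'
      rw [hTinner, ← inner_conj_symm, hTinner, map_sum, Finset.sum_comm]
      simp only [map_sum]
      rw [Finset.sum_comm]
      rw [Finset.sum_comm]
      refine Finset.sum_congr rfl fun i _ => Finset.sum_congr rfl fun j _ => ?_
      rw [inner_conj_symm, ← hsa j i, ContinuousLinearMap.star_eq_adjoint,
        ContinuousLinearMap.adjoint_inner_left]
    · intro w
      rw [hTinner]
      exact hpos w
  obtain ⟨R, hRR, hRs, hRn, hRc⟩ := sqrt_pack T hT0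
  -- entries
  obtain ⟨B, hB⟩ : ∃ B : I → I → (H →L[ℂ] H), B = fun l j => (pj l) ∘L R ∘L (ij j) := ⟨_, rfl⟩
  have hBa : ∀ l j v, B l j v = (R (ij j v)) l := by
    intro l j v
    rw [hB]; rfl
  have hRw : ∀ (w : HI H I) (l : I), (R w) l = ∑ j, B l j (w j) := by
    intro w l
    conv_lhs => rw [← sum_ij w, map_sum, ← pj_apply, map_sum]
    refine Finset.sum_congr rfl fun j _ => ?_
    rw [hBa]; rfl
  have hBs : ∀ l j, star (B l j) = B j l := by
    intro l j
    rw [hB, ContinuousLinearMap.star_eq_adjoint]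
    simp only [ContinuousLinearMap.adjoint_comp, adj_ij]
    rw [← ContinuousLinearMap.star_eq_adjoint R, hRs]
    rfl
  have hXB : ∀ i j, X i j = ∑ l, star (B l i) * B l j := by
    intro i j
    ext v
    have h1 : (T (ij j v)) i = X i j v := by
      rw [hTi, Finset.sum_eq_single j]
      · rw [← pj_apply, pj_ij, if_pos rfl]
      · intro b _ hb
        rw [← pj_apply, pj_ij, if_neg (Ne.symm hb), map_zero]
      · intro hj
        exact absurd (Finset.mem_univ j) hj
    rw [← h1, ← hRR]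
    show (R (R (ij j v))) i = _
    rw [hRw]
    simp only [sum_apply, hBs]
    refine Finset.sum_congr rfl fun l _ => ?_
    show B i l ((R (ij j v)) l) = B i l (B l j v)
    rw [hBa l j v]
  -- the diagonal operators
  obtain ⟨dg, hdg⟩ : ∃ dg : (H →L[ℂ] H) → (HI H I →L[ℂ] HI H I),
      dg = fun A => ∑ i, (ij i) ∘L A ∘L (pj i) := ⟨_, rfl⟩
  have hdga : ∀ A (w : HI H I) (i : I), (dg A w) i = A (w i) := by
    intro A w i
    rw [hdg, ← pj_apply]
    simp only [sum_apply, ContinuousLinearMap.comp_apply, map_sum]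
    rw [Finset.sum_eq_single i]
    · rw [pj_ij, if_pos rfl, pj_apply]
    · intro b _ hb
      rw [pj_ij, if_neg hb]
    · intro hi
      exact absurd (Finset.mem_univ i) hi
  have hcomm : ∀ A : H →L[ℂ] H, (∀ i j, X i j * A = A * X i j) → R * dg A = dg A * R := by
    intro A hA
    have h1 : T * dg A = dg A * T := by
      ext w i
      show (T (dg A w)) i = (dg A (T w)) i
      rw [hTi, hdga, hTi, map_sum]
      refine Finset.sum_congr rfl fun j _ => ?_
      rw [hdga]
      exact congrArg (fun T : H →L[ℂ] H => T (w j)) (hA i j)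
    exact hRc _ h1
  have hdgi : ∀ (A : H →L[ℂ] H) (j : I) (v : H), dg A (ij j v) = ij j (A v) := by
    intro A j v
    ext i
    rw [hdga, ← pj_apply, ← pj_apply, pj_ij, pj_ij]
    split_ifs <;> simp
  have hBc : ∀ A : H →L[ℂ] H, (∀ i j, X i j * A = A * X i j) → ∀ l j, B l j * A = A * B l j := by
    intro A hA l j
    ext v
    show B l j (A v) = A (B l j v)
    rw [hBa, hBa, ← hdgi, ← hdga A]
    exact congrArg (fun T : HI H I →L[ℂ] HI H I => (T (ij j v)) l) (hcomm A hA)
  have hXe : ∀ i j, e * X i j = X i j := by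
    intro i j
    have := congrArg star (he j i)
    rw [star_mul, p.sa, hsa] at this
    exact this
  have hBe : ∀ l j, B l j * e = B l j := by
    intro l j
    ext v
    show B l j (e v) = B l j v
    rw [← sub_eq_zero, ← map_sub, hBa]
    have h1 : ‖R (ij j (e v - v))‖ ^ 2 = 0 := by
      rw [hRn, hTinner]
      have h2 : ∀ i k, ⟪(ij j (e v - v) : HI H I) i, X i k ((ij j (e v - v) : HI H I) k)⟫_ℂ = 0 := by
        intro i k
        rw [← pj_apply k, pj_ij]
        split_ifs with hjk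
        · have h3 : X i k (e v - v) = 0 := by
            rw [map_sub, sub_eq_zero]
            exact congrArg (fun T : H →L[ℂ] H => T v) (he i k)
          rw [h3, inner_zero_right]
        · rw [map_zero, inner_zero_right]
      simp only [h2, Finset.sum_const_zero, Complex.zero_re]
    have h3 : R (ij j (e v - v)) = 0 := by
      rw [← norm_eq_zero]
      exact pow_eq_zero_iff (two_ne_zero) |>.1 h1
    rw [h3]; rfl
  have heB : ∀ l j, e * B l j = B l j := by
    intro l j
    have := congrArg star (hBe j l)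
    rw [star_mul, p.sa, hBs] at this
    exact this
  refine ⟨B, fun y hy => ?_⟩
  have hterm : ∀ i j, ⟪(y i * star (y j)) ξ, X i j ξ⟫_ℂ =
      ∑ l, ⟪ρ (y i) (B l i ξ), ρ (y j) (B l j ξ)⟫_ℂ := by
    intro i j
    rw [hXB, sum_apply, inner_sum]
    refine Finset.sum_congr rfl fun l _ => ?_
    exact star_id h p (hy i) (hy j) (fun a ha => hBc (ρ a) (fun i j => hc i j a ha) l i)
      (heB l j) (heB l i) (hBe l i)
  simp only [hterm]
  have h1 : ∀ i, ∑ j, ∑ l, ⟪ρ (y i) (B l i ξ), ρ (y j) (B l j ξ)⟫_ℂ =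
      ∑ l, ∑ j, ⟪ρ (y i) (B l i ξ), ρ (y j) (B l j ξ)⟫_ℂ := fun i => Finset.sum_comm
  simp only [h1]
  rw [Finset.sum_comm]
  push_cast
  refine Finset.sum_congr rfl fun l _ => ?_
  have h2 : ((‖∑ j, ρ (y j) (B l j ξ)‖ : ℝ) : ℂ) ^ 2 =
      ⟪∑ j, ρ (y j) (B l j ξ), ∑ j, ρ (y j) (B l j ξ)⟫_ℂ := by
    rw [inner_self_eq_norm_sq_to_K]; rfl
  rw [h2, sum_inner]
  refine Finset.sum_congr rfl fun i _ => ?_
  rw [inner_sum]

end posf

end Pool.Agent.W621.KKS
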