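import Mathlib
import Pool.Agent.W621.KKS.Posf
import Pool.Agent.W621.KKS.Kol
import Pool.Agent.W621.KKS.Nml

set_option autoImplicit false
set_option linter.unusedSectionVars false

open scoped InnerProductSpace ComplexConjugate
open Filter Topology Pool.Agent.Helper278 Pool.Agent.W662.KKS

namespace Pool.Agent.W621.KKS

variable {H : Type} [NormedAddCommGroup H] [InnerProductSpace ℂ H] [CompleteSpace H]
variable {M : VonNeumannAlgebra H} {ξ : H} {ρ : (H →L[ℂ] H) → (H →L[ℂ] H)}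
  {S : StarSubalgebra ℂ (H →L[ℂ] H)} {e : H →L[ℂ] H}

theorem tr_inner (h : Std M ξ ρ) {u a : H →L[ℂ] H} (hu : u ∈ M) (ha : a ∈ M) :
    ⟪star u ξ, star a ξ⟫_ℂ = ⟪a ξ, u ξ⟫_ℂ := by
  have h1 : ⟪star u ξ, star a ξ⟫_ℂ = ⟪ξ, u (star a ξ)⟫_ℂ := by
    rw [ContinuousLinearMap.star_eq_adjoint u, ContinuousLinearMap.adjoint_inner_left]
  have h2 : ⟪a ξ, u ξ⟫_ℂ = ⟪ξ, star a (u ξ)⟫_ℂ := by
    rw [ContinuousLinearMap.star_eq_adjoint, ContinuousLinearMap.adjoint_inner_right]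
  rw [h1, h2]
  exact h.tr u hu _ (star_mem ha)

theorem e_xi (p : Pr M ξ S e) : e ξ = ξ := p.fix 1 (one_mem S)

theorem jinv (h : Std M ξ ρ) (p : Pr M ξ S e) {u v : H →L[ℂ] H} (hu : u ∈ M) (hv : v ∈ M) :
    ⟪star u ξ, e (star v ξ)⟫_ℂ = conj ⟪u ξ, e (v ξ)⟫_ℂ := by
  obtain ⟨a, ha, hal⟩ := seq p (e (v ξ)) (ee p _)
  have hst : Tendsto (fun n => star (a n) ξ) atTop (𝓝 (e (star v ξ))) := by
    rw [tendsto_iff_norm_sub_tendsto_zero] at hal ⊢
    refine squeeze_zero (fun n => norm_nonneg _) (fun n => ?_) hal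
    have h1 : star (a n) ξ - e (star v ξ) = star (a n - e * v * e) ξ := by
      rw [star_sub, star_mul, star_mul, p.sa]
      show _ = star (a n) ξ - e (star v (e ξ))
      rw [e_xi p]
    have h2 : a n ξ - e (v ξ) = (a n - e * v * e) ξ := by
      show _ = a n ξ - e (v (e ξ))
      rw [e_xi p]
    rw [h1, h2]
    apply norm_adj_le h p
    · intro c hc
      have c1 := comm_right h p hc
      have c2 := h.comm c (p.sub c hc) v hv
      have c3 := h.comm c (p.sub c hc) _ (p.sub _ (ha n))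
      rw [sub_mul, mul_sub, ← c3]
      congr 1
      calc e * v * e * ρ c = e * v * (e * ρ c) := by rw [mul_assoc]
        _ = e * (v * ρ c) * e := by rw [c1]; simp only [mul_assoc]
        _ = (e * ρ c) * v * e := by rw [← c2]; simp only [mul_assoc]
        _ = ρ c * (e * v * e) := by rw [c1]; simp only [mul_assoc]
    · rw [← h1, map_sub, ee p, p.fix _ (star_mem (ha n))]
  have l1 : Tendsto (fun n => ⟪star u ξ, star (a n) ξ⟫_ℂ) atTop (𝓝 ⟪star u ξ, e (star v ξ)⟫_ℂ) :=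
    tendsto_const_nhds.inner hst
  have l2 : Tendsto (fun n => conj ⟪u ξ, a n ξ⟫_ℂ) atTop (𝓝 (conj ⟪u ξ, e (v ξ)⟫_ℂ)) :=
    (Complex.continuous_conj.tendsto _).comp (tendsto_const_nhds.inner hal)
  refine tendsto_nhds_unique l1 (l2.congr fun n => ?_)
  rw [tr_inner h hu (p.sub _ (ha n)), inner_conj_symm]

/-- the kernel of the bimodule `L²(M) ⊗_P L²(M)` -/
noncomputable def ker (ξ : H) (e : H →L[ℂ] H) (i j : Elt M × Elt M) : ℂ :=
  ⟪((i.2 * star j.2 : Elt M) : H →L[ℂ] H) ξ, e (((star i.1 * j.1 : Elt M) : H →L[ℂ] H) ξ)⟫_ℂ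

theorem ker_symm (h : Std M ξ ρ) (p : Pr M ξ S e) (i j : Elt M × Elt M) :
    conj (ker ξ e j i) = ker ξ e i j := by
  unfold ker
  rw [← jinv h p (j.2 * star i.2 : Elt M).2 (star j.1 * i.1 : Elt M).2]
  have h1 : star ((j.2 * star i.2 : Elt M) : H →L[ℂ] H) = ((i.2 * star j.2 : Elt M) : H →L[ℂ] H) := by
    have : (i.2 * star j.2 : Elt M) = star (j.2 * star i.2 : Elt M) := by
      rw [star_mul, star_star]
    rw [this]; rfl
  have h2 : star ((star j.1 * i.1 : Elt M) : H →L[ℂ] H) =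
      ((star i.1 * j.1 : Elt M) : H →L[ℂ] H) := by
    have : (star i.1 * j.1 : Elt M) = star (star j.1 * i.1 : Elt M) := by
      rw [star_mul, star_star]
    rw [this]; rfl
  rw [h1, h2]

/-- the matrix `e xᵢ* z xⱼ e` -/
noncomputable def XM (e : H →L[ℂ] H) (z : H →L[ℂ] H) {I : Type} (x : I → (H →L[ℂ] H)) (i j : I) :
    H →L[ℂ] H := e * (star (x i) * z * x j) * e

theorem XM_comm (h : Std M ξ ρ) (p : Pr M ξ S e) {z : H →L[ℂ] H} (hz : z ∈ M) {I : Type}
    (x : I → (H →L[ℂ] H)) (hx : ∀ i, x i ∈ M) (i j : I) (a : H →L[ℂ] H) (ha : a ∈ S) :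
    XM e z x i j * ρ a = ρ a * XM e z x i j := by
  have c1 := comm_right h p ha
  have hm : star (x i) * z * x j ∈ M := mul_mem (mul_mem (star_mem (hx i)) hz) (hx j)
  have c2 := h.comm a (p.sub a ha) _ hm
  unfold XM
  obtain ⟨v, hv⟩ : ∃ v, v = star (x i) * z * x j := ⟨_, rfl⟩
  rw [← hv] at c2 ⊢
  calc e * v * e * ρ a = e * v * (e * ρ a) := by rw [mul_assoc]
    _ = e * (v * ρ a) * e := by rw [c1]; simp only [mul_assoc]
    _ = (e * ρ a) * v * e := by rw [← c2]; simp only [mul_assoc]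
    _ = ρ a * (e * v * e) := by rw [c1]; simp only [mul_assoc]

theorem XM_star (p : Pr M ξ S e) {z : H →L[ℂ] H} (hz : star z = z) {I : Type}
    (x : I → (H →L[ℂ] H)) (i j : I) : star (XM e z x i j) = XM e z x j i := by
  unfold XM
  simp only [star_mul, star_star, p.sa, hz, mul_assoc]

theorem XM_e (p : Pr M ξ S e) (z : H →L[ℂ] H) {I : Type}
    (x : I → (H →L[ℂ] H)) (i j : I) : XM e z x i j * e = XM e z x i j := by
  unfold XM
  rw [mul_assoc, p.idem]

theorem XM_xi (p : Pr M ξ S e) (z : H →L[ℂ] H) {I : Type}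
    (x : I → (H →L[ℂ] H)) (i j : I) : XM e z x i j ξ = e ((star (x i) * z * x j) ξ) := by
  unfold XM
  show e ((star (x i) * z * x j) (e ξ)) = _
  rw [e_xi p]

theorem XM_sum (p : Pr M ξ S e) (z : H →L[ℂ] H) {I : Type} [Fintype I]
    (x : I → (H →L[ℂ] H)) (w : I → H) :
    ∑ i, ∑ j, ⟪w i, XM e z x i j (w j)⟫_ℂ =
      ⟪∑ i, x i (e (w i)), z (∑ j, x j (e (w j)))⟫_ℂ := by
  rw [sum_inner]
  refine Finset.sum_congr rfl fun i _ => ?_
  rw [map_sum, inner_sum]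
  refine Finset.sum_congr rfl fun j _ => ?_
  unfold XM
  show ⟪w i, e (star (x i) (z (x j (e (w j)))))⟫_ℂ = _
  have h1 : ∀ u v : H, ⟪u, e v⟫_ℂ = ⟪e u, v⟫_ℂ := by
    intro u v
    rw [← ContinuousLinearMap.adjoint_inner_right, ← ContinuousLinearMap.star_eq_adjoint, p.sa]
  rw [h1, ContinuousLinearMap.star_eq_adjoint, ContinuousLinearMap.adjoint_inner_right]

/-- the norm of a linear combination -/
theorem lcn {ι K : Type} [NormedAddCommGroup K] [InnerProductSpace ℂ K] (w : ι → K)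
    (c : ι →₀ ℂ) : ((‖Finsupp.linearCombination ℂ w c‖ ^ 2 : ℝ) : ℂ) =
      ∑ i : c.support, ∑ j : c.support, conj (c i) * (c j * ⟪w i, w j⟫_ℂ) := by
  have h1 : ((‖Finsupp.linearCombination ℂ w c‖ ^ 2 : ℝ) : ℂ) =
      ⟪Finsupp.linearCombination ℂ w c, Finsupp.linearCombination ℂ w c⟫_ℂ := by
    rw [inner_self_eq_norm_sq_to_K]; push_cast; rfl
  have h2 : Finsupp.linearCombination ℂ w c = ∑ i : c.support, c i • w i := by
    rw [Finsupp.linearCombination_apply, Finsupp.sum]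
    exact (Finset.sum_coe_sort c.support (fun i => c i • w i)).symm
  rw [h1, h2, sum_inner]
  refine Finset.sum_congr rfl fun i _ => ?_
  rw [inner_sum]
  refine Finset.sum_congr rfl fun j _ => ?_
  rw [inner_smul_left, inner_smul_right]

/-- the quadratic form of the kernel, through `posf` -/
theorem ker_term (p : Pr M ξ S e) (c : (Elt M × Elt M) →₀ ℂ) (z : Elt M) (i j : c.support) :
    conj (c i) * (c j * ⟪((i.1.2 * star j.1.2 : Elt M) : H →L[ℂ] H) ξ,
      e (((star i.1.1 * z * j.1.1 : Elt M) : H →L[ℂ] H) ξ)⟫_ℂ) =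
      ⟪((i.1.2 : H →L[ℂ] H) * star (j.1.2 : H →L[ℂ] H)) ξ,
        XM e (z : H →L[ℂ] H) (fun i : c.support => c i • (i.1.1 : H →L[ℂ] H)) i j ξ⟫_ℂ := by
  rw [XM_xi p]
  have h1 : (star (c i • (i.1.1 : H →L[ℂ] H)) * (z : H →L[ℂ] H) * (c j • (j.1.1 : H →L[ℂ] H))) ξ =
      conj (c i) • (c j • (((star i.1.1 * z * j.1.1 : Elt M) : H →L[ℂ] H) ξ)) := by
    rw [star_smul]
    show (starRingEnd ℂ) (c i) • (star (i.1.1 : H →L[ℂ] H)) ((z : H →L[ℂ] H)
      (c j • ((j.1.1 : H →L[ℂ] H) ξ))) = _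
    rw [map_smul, map_smul]
    rfl
  rw [h1, map_smul, map_smul, inner_smul_right, inner_smul_right]
  rfl

end Pool.Agent.W621.KKS
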