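import Mathlib
import Pool.Agent.W621.KKS.Ker

set_option autoImplicit false
set_option linter.unusedSectionVars false

open scoped InnerProductSpace ComplexConjugate
open Filter Topology Pool.Agent.Helper278 Pool.Agent.W662.KKS

namespace Pool.Agent.W621.KKS

variable {H : Type} [NormedAddCommGroup H] [InnerProductSpace ℂ H] [CompleteSpace H]
variable {M : VonNeumannAlgebra H} {ξ : H} {ρ : (H →L[ℂ] H) → (H →L[ℂ] H)}
  {S : StarSubalgebra ℂ (H →L[ℂ] H)} {e : H →L[ℂ] H}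

/-- the quadratic form with a middle element `z` and right factors `w` -/
theorem form_eq (h : Std M ξ ρ) (p : Pr M ξ S e) (c : (Elt M × Elt M) →₀ ℂ) (z : Elt M)
    (hz : star z = z) (hz0 : ∀ v : H, 0 ≤ (⟪v, (z : H →L[ℂ] H) v⟫_ℂ).re) :
    ∃ B : c.support → c.support → (H →L[ℂ] H), ∀ w : c.support → Elt M,
      ∑ i : c.support, ∑ j : c.support, conj (c i) * (c j *
        ⟪((w i * star (w j) : Elt M) : H →L[ℂ] H) ξ,
          e (((star i.1.1 * z * j.1.1 : Elt M) : H →L[ℂ] H) ξ)⟫_ℂ) =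
      ((∑ l, ‖∑ j, ρ (w j) (B l j ξ)‖ ^ 2 : ℝ) : ℂ) := by
  classical
  obtain ⟨B, hB⟩ := posf h p (XM e (z : H →L[ℂ] H)
    (fun i : c.support => c i • (i.1.1 : H →L[ℂ] H)))
    (fun i j => XM_star p (congrArg (fun t : Elt M => (t : H →L[ℂ] H)) hz) _ i j)
    (fun i j a ha => XM_comm h p z.2 _ (fun i : c.support => (c i • i.1.1 : Elt M).2) i j a ha)
    (fun i j => XM_e p _ _ i j)
    (fun w => by rw [XM_sum p]; exact hz0 _)
  refine ⟨B, fun w => ?_⟩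
  rw [← hB (fun i => (w i : H →L[ℂ] H)) (fun i => (w i).2)]
  refine Finset.sum_congr rfl fun i _ => Finset.sum_congr rfl fun j _ => ?_
  rw [XM_xi p]
  have h1 : (star (c i • (i.1.1 : H →L[ℂ] H)) * (z : H →L[ℂ] H) * (c j • (j.1.1 : H →L[ℂ] H))) ξ =
      conj (c i) • (c j • (((star i.1.1 * z * j.1.1 : Elt M) : H →L[ℂ] H) ξ)) := by
    rw [star_smul]
    show (starRingEnd ℂ) (c i) • (star (i.1.1 : H →L[ℂ] H)) ((z : H →L[ℂ] H)
      (c j • ((j.1.1 : H →L[ℂ] H) ξ))) = _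
    rw [map_smul, map_smul]
    rfl
  rw [h1, map_smul, map_smul, inner_smul_right, inner_smul_right]
  rfl

theorem ker_pos (h : Std M ξ ρ) (p : Pr M ξ S e) (c : (Elt M × Elt M) →₀ ℂ) :
    0 ≤ (c.sum fun i a => c.sum fun j b => conj a * (b * ker ξ e i j)).re := by
  obtain ⟨B, hB⟩ := form_eq h p c 1 (star_one _) (fun v => by
    show 0 ≤ (⟪v, v⟫_ℂ).re
    exact inner_self_nonneg (𝕜 := ℂ) (x := v))
  have h1 := hB (fun i => i.1.2)
  have h2 : (c.sum fun i a => c.sum fun j b => conj a * (b * ker ξ e i j)) =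
      ((∑ l, ‖∑ j : c.support, ρ ((j.1.2 : Elt M) : H →L[ℂ] H) (B l j ξ)‖ ^ 2 : ℝ) : ℂ) := by
    rw [← h1, Finsupp.sum]
    rw [← Finset.sum_coe_sort c.support]
    refine Finset.sum_congr rfl fun i _ => ?_
    rw [Finsupp.sum, ← Finset.sum_coe_sort c.support]
    refine Finset.sum_congr rfl fun j _ => ?_
    simp only [mul_one]
    rfl
  rw [h2, Complex.ofReal_re]
  positivity

section ops

variable {K : Type} [NormedAddCommGroup K] [InnerProductSpace ℂ K] [CompleteSpace K]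

theorem bound_left (h : Std M ξ ρ) (p : Pr M ξ S e) (v : Elt M × Elt M → K)
    (hv : ∀ i j, ⟪v i, v j⟫_ℂ = ker ξ e i j) (z : Elt M) (c : (Elt M × Elt M) →₀ ℂ) :
    ‖Finsupp.linearCombination ℂ (fun i => v (z * i.1, i.2)) c‖ ≤
      ‖(z : H →L[ℂ] H)‖ * ‖Finsupp.linearCombination ℂ v c‖ := by
  obtain ⟨q, hq⟩ : ∃ q : Elt M, q = ((‖(z : H →L[ℂ] H)‖ ^ 2 : ℝ) : ℂ) • (1 : Elt M) -
    star z * z := ⟨_, rfl⟩
  have hqs : star q = q := by
    rw [hq, star_sub, star_mul, star_star, star_smul, star_one]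
    congr 2
    exact Complex.conj_ofReal _
  have hq0 : ∀ v : H, 0 ≤ (⟪v, (q : H →L[ℂ] H) v⟫_ℂ).re := by
    intro v
    have h1 : (q : H →L[ℂ] H) v = ((‖(z : H →L[ℂ] H)‖ ^ 2 : ℝ) : ℂ) • v -
        star (z : H →L[ℂ] H) ((z : H →L[ℂ] H) v) := by
      rw [hq]; rfl
    rw [h1, inner_sub_right, inner_smul_right, ContinuousLinearMap.star_eq_adjoint,
      ContinuousLinearMap.adjoint_inner_right, inner_self_eq_norm_sq_to_K,
      inner_self_eq_norm_sq_to_K]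
    have h2 := (z : H →L[ℂ] H).le_opNorm v
    have h3 : ‖(z : H →L[ℂ] H) v‖ ^ 2 ≤ ‖(z : H →L[ℂ] H)‖ ^ 2 * ‖v‖ ^ 2 := by
      rw [← mul_pow]
      exact pow_le_pow_left₀ (norm_nonneg _) h2 2
    have h4 : (((‖(z : H →L[ℂ] H)‖ ^ 2 : ℝ) : ℂ) * ((‖v‖ : ℝ) : ℂ) ^ 2 -
        ((‖(z : H →L[ℂ] H) v‖ : ℝ) : ℂ) ^ 2) =
        ((‖(z : H →L[ℂ] H)‖ ^ 2 * ‖v‖ ^ 2 - ‖(z : H →L[ℂ] H) v‖ ^ 2 : ℝ) : ℂ) := by
      push_cast; ring
    show 0 ≤ (((‖(z : H →L[ℂ] H)‖ ^ 2 : ℝ) : ℂ) * ((‖v‖ : ℝ) : ℂ) ^ 2 -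
        ((‖(z : H →L[ℂ] H) v‖ : ℝ) : ℂ) ^ 2).re
    rw [h4, Complex.ofReal_re]
    linarith
  obtain ⟨B, hB⟩ := form_eq h p c q hqs hq0
  have h1 := hB (fun i => i.1.2)
  have n1 := lcn v c
  have n2 := lcn (fun i => v (z * i.1, i.2)) c
  have h3 : ((‖(z : H →L[ℂ] H)‖ ^ 2 * ‖Finsupp.linearCombination ℂ v c‖ ^ 2 -
      ‖Finsupp.linearCombination ℂ (fun i => v (z * i.1, i.2)) c‖ ^ 2 : ℝ) : ℂ) =
      ((∑ l, ‖∑ j : c.support, ρ ((j.1.2 : Elt M) : H →L[ℂ] H) (B l j ξ)‖ ^ 2 : ℝ) : ℂ) := by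
    rw [← h1, Complex.ofReal_sub, Complex.ofReal_mul, n1, n2, Finset.mul_sum,
      ← Finset.sum_sub_distrib]
    refine Finset.sum_congr rfl fun i _ => ?_
    rw [Finset.mul_sum, ← Finset.sum_sub_distrib]
    refine Finset.sum_congr rfl fun j _ => ?_
    rw [hv, hv]
    unfold ker
    have h4 : ((star i.1.1 * q * j.1.1 : Elt M) : H →L[ℂ] H) ξ =
        ((‖(z : H →L[ℂ] H)‖ ^ 2 : ℝ) : ℂ) • (((star i.1.1 * j.1.1 : Elt M) : H →L[ℂ] H) ξ) -
        ((star (z * i.1.1) * (z * j.1.1) : Elt M) : H →L[ℂ] H) ξ := by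
      have h5 : (star i.1.1 * q * j.1.1 : Elt M) =
          ((‖(z : H →L[ℂ] H)‖ ^ 2 : ℝ) : ℂ) • (star i.1.1 * j.1.1 : Elt M) -
          star (z * i.1.1) * (z * j.1.1) := by
        rw [hq, star_mul]
        simp only [mul_sub, sub_mul, mul_smul_comm, smul_mul_assoc, mul_one, mul_assoc]
      rw [h5]; rfl
    rw [h4, map_sub, map_smul, inner_sub_right, inner_smul_right]
    ring
  have h4 := Complex.ofReal_injective h3
  have h5 : 0 ≤ ‖(z : H →L[ℂ] H)‖ ^ 2 * ‖Finsupp.linearCombination ℂ v c‖ ^ 2 -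
      ‖Finsupp.linearCombination ℂ (fun i => v (z * i.1, i.2)) c‖ ^ 2 := by
    rw [h4]; positivity
  refine (sq_le_sq₀ (norm_nonneg _) (by positivity)).1 ?_
  rw [mul_pow]
  linarith

theorem bound_right (h : Std M ξ ρ) (p : Pr M ξ S e) (v : Elt M × Elt M → K)
    (hv : ∀ i j, ⟪v i, v j⟫_ℂ = ker ξ e i j) (z : Elt M) (c : (Elt M × Elt M) →₀ ℂ) :
    ‖Finsupp.linearCombination ℂ (fun i => v (i.1, i.2 * z)) c‖ ≤
      ‖(z : H →L[ℂ] H)‖ * ‖Finsupp.linearCombination ℂ v c‖ := by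
  obtain ⟨B, hB⟩ := form_eq h p c 1 (star_one _) (fun v => by
    show 0 ≤ (⟪v, v⟫_ℂ).re
    exact inner_self_nonneg (𝕜 := ℂ) (x := v))
  have h1 := hB (fun i => i.1.2)
  have h2 := hB (fun i => i.1.2 * z)
  have n1 := lcn v c
  have n2 := lcn (fun i => v (i.1, i.2 * z)) c
  have e1 : ‖Finsupp.linearCombination ℂ v c‖ ^ 2 =
      ∑ l, ‖∑ j : c.support, ρ ((j.1.2 : Elt M) : H →L[ℂ] H) (B l j ξ)‖ ^ 2 := by
    apply Complex.ofReal_injective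
    rw [n1, ← h1]
    refine Finset.sum_congr rfl fun i _ => Finset.sum_congr rfl fun j _ => ?_
    rw [hv]
    simp only [mul_one]
    rfl
  have e2 : ‖Finsupp.linearCombination ℂ (fun i => v (i.1, i.2 * z)) c‖ ^ 2 =
      ∑ l, ‖∑ j : c.support, ρ ((j.1.2 * z : Elt M) : H →L[ℂ] H) (B l j ξ)‖ ^ 2 := by
    apply Complex.ofReal_injective
    rw [n2, ← h2]
    refine Finset.sum_congr rfl fun i _ => Finset.sum_congr rfl fun j _ => ?_
    rw [hv]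
    simp only [mul_one]
    rfl
  have e3 : ∀ l, ∑ j : c.support, ρ ((j.1.2 * z : Elt M) : H →L[ℂ] H) (B l j ξ) =
      ρ (z : H →L[ℂ] H) (∑ j : c.support, ρ ((j.1.2 : Elt M) : H →L[ℂ] H) (B l j ξ)) := by
    intro l
    rw [map_sum]
    refine Finset.sum_congr rfl fun j _ => ?_
    have : ρ ((j.1.2 * z : Elt M) : H →L[ℂ] H) = ρ (z : H →L[ℂ] H) * ρ (j.1.2 : H →L[ℂ] H) :=
      h.mul _ j.1.2.2 _ z.2
    rw [this]; rfl
  refine (sq_le_sq₀ (norm_nonneg _) (by positivity)).1 ?_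
  rw [mul_pow, e1, e2, Finset.mul_sum]
  refine Finset.sum_le_sum fun l _ => ?_
  rw [e3, ← mul_pow]
  apply pow_le_pow_left₀ (norm_nonneg _)
  refine ((ρ (z : H →L[ℂ] H)).le_opNorm _).trans ?_
  rw [h.norm _ z.2]

end ops

end Pool.Agent.W621.KKS
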