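import Mathlib
import Pool.Agent.W621.KKS.Bim

set_option autoImplicit false
set_option linter.unusedSectionVars false

open scoped InnerProductSpace ComplexConjugate
open Filter Topology Pool.Agent.Helper278 Pool.Agent.W662.KKS

namespace Pool.Agent.W621.KKS

variable {H : Type} [NormedAddCommGroup H] [InnerProductSpace ℂ H] [CompleteSpace H]
variable {M : VonNeumannAlgebra H} {ξ : H} {ρ : (H →L[ℂ] H) → (H →L[ℂ] H)}
  {S : StarSubalgebra ℂ (H →L[ℂ] H)} {e : H →L[ℂ] H}

section kerlin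

theorem ker_left_add (i j : Elt M × Elt M) (a b : Elt M) :
    ker ξ e i ((a + b) * j.1, j.2) = ker ξ e i (a * j.1, j.2) + ker ξ e i (b * j.1, j.2) := by
  unfold ker
  rw [← inner_add_right, ← map_add]
  congr 2
  have : (star i.1 * ((a + b) * j.1) : Elt M) = star i.1 * (a * j.1) + star i.1 * (b * j.1) := by
    rw [add_mul, mul_add]
  show ((star i.1 * ((a + b) * j.1) : Elt M) : H →L[ℂ] H) ξ = _
  rw [this]; rfl

theorem ker_left_smul (i j : Elt M × Elt M) (r : ℂ) :
    ker ξ e i ((r • (1 : Elt M)) * j.1, j.2) = r * ker ξ e i j := by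
  unfold ker
  rw [← inner_smul_right, ← map_smul]
  congr 2
  have : (star i.1 * ((r • (1 : Elt M)) * j.1) : Elt M) = r • (star i.1 * j.1) := by
    rw [smul_mul_assoc, one_mul, mul_smul_comm]
  show ((star i.1 * ((r • (1 : Elt M)) * j.1) : Elt M) : H →L[ℂ] H) ξ = _
  rw [this]; rfl

theorem ker_left_star (i j : Elt M × Elt M) (z : Elt M) :
    ker ξ e i (star z * j.1, j.2) = ker ξ e (z * i.1, i.2) j := by
  unfold ker
  congr 2
  have : (star i.1 * (star z * j.1) : Elt M) = star (z * i.1) * j.1 := by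
    rw [star_mul, mul_assoc]
  show ((star i.1 * (star z * j.1) : Elt M) : H →L[ℂ] H) ξ = _
  rw [this]

theorem ker_right_add (i j : Elt M × Elt M) (a b : Elt M) :
    ker ξ e i (j.1, j.2 * (a + b)) = ker ξ e i (j.1, j.2 * a) + ker ξ e i (j.1, j.2 * b) := by
  unfold ker
  rw [← inner_add_left]
  congr 1
  have : (i.2 * star (j.2 * (a + b)) : Elt M) = i.2 * star (j.2 * a) + i.2 * star (j.2 * b) := by
    rw [mul_add, star_add, mul_add]
  show ((i.2 * star (j.2 * (a + b)) : Elt M) : H →L[ℂ] H) ξ = _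
  rw [this]; rfl

theorem ker_right_smul (i j : Elt M × Elt M) (r : ℂ) :
    ker ξ e i (j.1, j.2 * (r • (1 : Elt M))) = r * ker ξ e i j := by
  unfold ker
  have : (i.2 * star (j.2 * (r • (1 : Elt M))) : Elt M) = (conj r) • (i.2 * star j.2) := by
    rw [mul_smul_comm, mul_one, star_smul, mul_smul_comm]; rfl
  have h2 : ((i.2 * star (j.2 * (r • (1 : Elt M))) : Elt M) : H →L[ℂ] H) ξ =
      (conj r) • (((i.2 * star j.2 : Elt M) : H →L[ℂ] H) ξ) := by
    rw [this]; rfl
  show ⟪((i.2 * star (j.2 * (r • (1 : Elt M))) : Elt M) : H →L[ℂ] H) ξ, _⟫_ℂ = _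
  rw [h2, inner_smul_left, Complex.conj_conj]

theorem ker_right_star (i j : Elt M × Elt M) (z : Elt M) :
    ker ξ e i (j.1, j.2 * star z) = ker ξ e (i.1, i.2 * z) j := by
  unfold ker
  have : (i.2 * star (j.2 * star z) : Elt M) = (i.2 * z) * star j.2 := by
    rw [star_mul, star_star, mul_assoc]
  show ⟪((i.2 * star (j.2 * star z) : Elt M) : H →L[ℂ] H) ξ, _⟫_ℂ = _
  rw [this]

end kerlin

/-- the bimodule `L²(M) ⊗_P L²(M)` -/
theorem exists_bimodule (h : Std M ξ ρ) (p : Pr M ξ S e) :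
    ∃ (K : Type) (_ : NormedAddCommGroup K) (_ : InnerProductSpace ℂ K) (_ : CompleteSpace K)
      (v : Elt M × Elt M → K) (L : Elt M →⋆ₐ[ℂ] (K →L[ℂ] K)) (R : (Elt M)ᵐᵒᵖ →⋆ₐ[ℂ] (K →L[ℂ] K)),
      (∀ i j, ⟪v i, v j⟫_ℂ = ker ξ e i j) ∧ DenseRange (Finsupp.linearCombination ℂ v) ∧
      (∀ z i, L z (v i) = v (z * i.1, i.2)) ∧
      (∀ z i, R (MulOpposite.op z) (v i) = v (i.1, i.2 * z)) ∧
      (∀ z : Elt M, ‖L z‖ ≤ ‖(z : H →L[ℂ] H)‖) ∧
      (∀ z : Elt M, ‖R (MulOpposite.op z)‖ ≤ ‖(z : H →L[ℂ] H)‖) := by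
  obtain ⟨K, i1, i2, i3, v, hv, hd⟩ := kol (ker ξ e) (ker_symm h p) (ker_pos h p)
  have hL : ∀ z : Elt M, ∃ T : K →L[ℂ] K, (∀ i, T (v i) = v (z * i.1, i.2)) ∧
      ‖T‖ ≤ ‖(z : H →L[ℂ] H)‖ := fun z =>
    ext_total v (fun i => v (z * i.1, i.2)) hd _ (norm_nonneg _) (bound_left h p v hv z)
  have hR : ∀ z : Elt M, ∃ T : K →L[ℂ] K, (∀ i, T (v i) = v (i.1, i.2 * z)) ∧
      ‖T‖ ≤ ‖(z : H →L[ℂ] H)‖ := fun z =>
    ext_total v (fun i => v (i.1, i.2 * z)) hd _ (norm_nonneg _) (bound_right h p v hv z)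
  choose L hL1 hL2 using hL
  choose R hR1 hR2 using hR
  refine ⟨K, i1, i2, i3, v,
    { toFun := L
      map_one' := ?_
      map_mul' := ?_
      map_zero' := ?_
      map_add' := ?_
      commutes' := ?_
      map_star' := ?_ },
    { toFun := fun Z => R (MulOpposite.unop Z)
      map_one' := ?_
      map_mul' := ?_
      map_zero' := ?_
      map_add' := ?_
      commutes' := ?_
      map_star' := ?_ }, hv, hd, hL1, hR1, hL2, hR2⟩
  · refine eq_total v hd _ _ fun i => ?_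
    rw [hL1, one_mul]; rfl
  · intro a b
    refine eq_total v hd _ _ fun i => ?_
    rw [hL1]
    show _ = L a (L b (v i))
    rw [hL1, hL1, mul_assoc]
  · refine inner_total v hd _ _ fun i j => ?_
    rw [hL1, hv]
    have h1 := ker_left_smul (ξ := ξ) (e := e) i j 0
    rw [zero_smul] at h1
    rw [h1]
    simp
  · intro a b
    refine inner_total v hd _ _ fun i j => ?_
    rw [hL1, hv, ker_left_add]
    show _ = ⟪v i, L a (v j) + L b (v j)⟫_ℂ
    rw [inner_add_right, hL1, hL1, hv, hv]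
  · intro r
    refine inner_total v hd _ _ fun i j => ?_
    have h1 := ker_left_smul (ξ := ξ) (e := e) i j r
    rw [Algebra.algebraMap_eq_smul_one, hL1, hv, h1, Algebra.algebraMap_eq_smul_one]
    show _ = ⟪v i, r • (v j)⟫_ℂ
    rw [inner_smul_right, hv]
  · intro z
    refine inner_total v hd _ _ fun i j => ?_
    rw [hL1, hv, ker_left_star, ContinuousLinearMap.star_eq_adjoint,
      ContinuousLinearMap.adjoint_inner_right, hL1, hv]
  · refine eq_total v hd _ _ fun i => ?_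
    show R 1 (v i) = v i
    rw [hR1, mul_one]
  · intro a b
    refine eq_total v hd _ _ fun i => ?_
    show R (MulOpposite.unop (a * b)) (v i) = R (MulOpposite.unop a) (R (MulOpposite.unop b) (v i))
    rw [hR1, hR1, hR1, MulOpposite.unop_mul, mul_assoc]
  · refine inner_total v hd _ _ fun i j => ?_
    show ⟪v i, R 0 (v j)⟫_ℂ = _
    rw [hR1, hv]
    have h1 := ker_right_smul (ξ := ξ) (e := e) i j 0
    rw [zero_smul, zero_mul] at h1
    rw [h1]
    simp
  · intro a b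
    refine inner_total v hd _ _ fun i j => ?_
    show ⟪v i, R (MulOpposite.unop (a + b)) (v j)⟫_ℂ =
      ⟪v i, R (MulOpposite.unop a) (v j) + R (MulOpposite.unop b) (v j)⟫_ℂ
    rw [MulOpposite.unop_add, hR1, hv, ker_right_add, inner_add_right, hR1, hR1, hv, hv]
  · intro r
    refine inner_total v hd _ _ fun i j => ?_
    have h1 := ker_right_smul (ξ := ξ) (e := e) i j r
    have h2 : MulOpposite.unop (algebraMap ℂ (Elt M)ᵐᵒᵖ r) = r • (1 : Elt M) := by
      rw [MulOpposite.algebraMap_apply, MulOpposite.unop_op, Algebra.algebraMap_eq_smul_one]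
    show ⟪v i, R (MulOpposite.unop (algebraMap ℂ (Elt M)ᵐᵒᵖ r)) (v j)⟫_ℂ = _
    rw [h2, hR1, hv, h1, Algebra.algebraMap_eq_smul_one]
    show _ = ⟪v i, r • (v j)⟫_ℂ
    rw [inner_smul_right, hv]
  · intro z
    refine inner_total v hd _ _ fun i j => ?_
    show ⟪v i, R (MulOpposite.unop (star z)) (v j)⟫_ℂ = ⟪v i, star (R (MulOpposite.unop z)) (v j)⟫_ℂ
    rw [MulOpposite.unop_star, hR1, hv, ker_right_star, ContinuousLinearMap.star_eq_adjoint,
      ContinuousLinearMap.adjoint_inner_right, hR1, hv]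

end Pool.Agent.W621.KKS
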