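import Mathlib
import Pool.Agent.W621.KKS.Rep
import Pool.Agent.W662.KKS.Stmts

set_option autoImplicit false
set_option linter.unusedSectionVars false

open scoped InnerProductSpace ComplexConjugate
open Filter Topology Pool.Agent.Helper278 Pool.Agent.W662.KKS

namespace Pool.Agent.W621.KKS

variable {H : Type} [NormedAddCommGroup H] [InnerProductSpace ℂ H] [CompleteSpace H]
variable {M : VonNeumannAlgebra H} {ξ : H} {ρ : (H →L[ℂ] H) → (H →L[ℂ] H)}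
  {S : StarSubalgebra ℂ (H →L[ℂ] H)} {e : H →L[ℂ] H}

section normality

variable {K : Type} [NormedAddCommGroup K] [InnerProductSpace ℂ K] [CompleteSpace K]

theorem normal_left (h : Std M ξ ρ) (v : Elt M × Elt M → K) (L : Elt M →⋆ₐ[ℂ] (K →L[ℂ] K))
    (hv : ∀ i j, ⟪v i, v j⟫_ℂ = ker ξ e i j) (hd : DenseRange (Finsupp.linearCombination ℂ v))
    (hL : ∀ z i, L z (v i) = v (z * i.1, i.2)) (hn : ∀ z : Elt M, ‖L z‖ ≤ ‖(z : H →L[ℂ] H)‖) :
    IsNormalRep L := by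
  intro D s hne hsa hs hdir hsup ζ
  refine normal_of h (fun x => L x) (fun x y => map_sub L x y) hn ?_ v hd ?_ D s hne hsa hs hdir
    hsup ζ
  · intro z ζ
    show 0 ≤ (⟪ζ, L (star z * z) ζ⟫_ℂ).re
    rw [map_mul, map_star, ContinuousLinearMap.star_eq_adjoint]
    show 0 ≤ (⟪ζ, ContinuousLinearMap.adjoint (L z) (L z ζ)⟫_ℂ).re
    rw [ContinuousLinearMap.adjoint_inner_right]
    exact inner_self_nonneg (𝕜 := ℂ) (x := L z ζ)
  · intro i j
    refine ⟨‖((i.2 * star j.2 : Elt M) : H →L[ℂ] H) ξ‖ * (‖e‖ * (‖star (i.1 : H →L[ℂ] H)‖ *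
      ‖ρ (j.1 : H →L[ℂ] H)‖)), fun x => ?_⟩
    show ‖⟪v i, L x (v j)⟫_ℂ‖ ≤ _
    rw [hL, hv]
    unfold ker
    refine (norm_inner_le_norm _ _).trans ?_
    rw [mul_assoc]
    refine mul_le_mul_of_nonneg_left ?_ (norm_nonneg _)
    have h1 : ((star i.1 * (x * j.1) : Elt M) : H →L[ℂ] H) ξ =
        star (i.1 : H →L[ℂ] H) (ρ (j.1 : H →L[ℂ] H) ((x : H →L[ℂ] H) ξ)) := by
      rw [← comm_apply h j.1.2 x.2]; rfl
    show ‖e (((star i.1 * (x * j.1) : Elt M) : H →L[ℂ] H) ξ)‖ ≤ _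
    rw [h1]
    calc _ ≤ ‖e‖ * ‖star (i.1 : H →L[ℂ] H) (ρ (j.1 : H →L[ℂ] H) ((x : H →L[ℂ] H) ξ))‖ :=
          e.le_opNorm _
      _ ≤ ‖e‖ * (‖star (i.1 : H →L[ℂ] H)‖ * (‖ρ (j.1 : H →L[ℂ] H)‖ * ‖(x : H →L[ℂ] H) ξ‖)) := by
          gcongr
          refine (ContinuousLinearMap.le_opNorm _ _).trans ?_
          gcongr
          exact ContinuousLinearMap.le_opNorm _ _
      _ = _ := by ring

theorem sle_op (X Y : (Elt M)ᵐᵒᵖ) : SLe X Y ↔ SLe (MulOpposite.unop X) (MulOpposite.unop Y) := by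
  constructor
  · rintro ⟨Z, hZ⟩
    refine ⟨star (MulOpposite.unop Z), ?_⟩
    have := congrArg MulOpposite.unop hZ
    rw [star_star]
    exact this
  · rintro ⟨z, hz⟩
    refine ⟨MulOpposite.op (star z), ?_⟩
    apply MulOpposite.unop_injective
    show MulOpposite.unop Y - MulOpposite.unop X = star z * star (star z)
    rw [star_star]
    exact hz

theorem normal_right (h : Std M ξ ρ) (v : Elt M × Elt M → K)
    (R : (Elt M)ᵐᵒᵖ →⋆ₐ[ℂ] (K →L[ℂ] K))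
    (hv : ∀ i j, ⟪v i, v j⟫_ℂ = ker ξ e i j) (hd : DenseRange (Finsupp.linearCombination ℂ v))
    (hR : ∀ z i, R (MulOpposite.op z) (v i) = v (i.1, i.2 * z))
    (hn : ∀ z : Elt M, ‖R (MulOpposite.op z)‖ ≤ ‖(z : H →L[ℂ] H)‖) :
    IsNormalRep R := by
  intro D s hne hsa hs hdir hsup ζ
  have key := normal_of h (fun x => R (MulOpposite.op x))
    (fun x y => by
      show R (MulOpposite.op (x - y)) = _
      rw [MulOpposite.op_sub, map_sub]) hn ?_ v hd ?_ (MulOpposite.unop '' D)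
    (MulOpposite.unop s) (hne.image _) ?_ ?_ ?_ ?_ ζ
  · have e1 : (fun x => (⟪ζ, R (MulOpposite.op x) ζ⟫_ℂ).re) '' (MulOpposite.unop '' D) =
        (fun X => (⟪ζ, R X ζ⟫_ℂ).re) '' D := by
      rw [Set.image_image]
      rfl
    rw [← e1]
    exact key
  · intro z ζ
    show 0 ≤ (⟪ζ, R (MulOpposite.op (star z * z)) ζ⟫_ℂ).re
    have e1 : MulOpposite.op (star z * z) = MulOpposite.op z * star (MulOpposite.op z) := rfl
    rw [e1, map_mul, map_star]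
    show 0 ≤ (⟪ζ, R (MulOpposite.op z) (star (R (MulOpposite.op z)) ζ)⟫_ℂ).re
    rw [← ContinuousLinearMap.adjoint_inner_left, ← ContinuousLinearMap.star_eq_adjoint]
    exact inner_self_nonneg (𝕜 := ℂ) (x := star (R (MulOpposite.op z)) ζ)
  · intro i j
    refine ⟨‖(i.2 : H →L[ℂ] H)‖ * ‖ρ (star (j.2 : H →L[ℂ] H))‖ *
      ‖e (((star i.1 * j.1 : Elt M) : H →L[ℂ] H) ξ)‖, fun x => ?_⟩
    show ‖⟪v i, R (MulOpposite.op x) (v j)⟫_ℂ‖ ≤ _
    rw [hR, hv]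
    unfold ker
    refine (norm_inner_le_norm _ _).trans ?_
    have h1 : ((i.2 * star (j.2 * x) : Elt M) : H →L[ℂ] H) ξ =
        (i.2 : H →L[ℂ] H) (ρ (star (j.2 : H →L[ℂ] H)) (star (x : H →L[ℂ] H) ξ)) := by
      rw [← comm_apply h (star_mem j.2.2) (star_mem x.2)]
      have : (i.2 * star (j.2 * x) : Elt M) = i.2 * (star x * star j.2) := by rw [star_mul]
      rw [this]; rfl
    show ‖((i.2 * star (j.2 * x) : Elt M) : H →L[ℂ] H) ξ‖ * _ ≤ _
    rw [h1]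
    have h2 : ‖(i.2 : H →L[ℂ] H) (ρ (star (j.2 : H →L[ℂ] H)) (star (x : H →L[ℂ] H) ξ))‖ ≤
        ‖(i.2 : H →L[ℂ] H)‖ * (‖ρ (star (j.2 : H →L[ℂ] H))‖ * ‖(x : H →L[ℂ] H) ξ‖) := by
      refine (ContinuousLinearMap.le_opNorm _ _).trans ?_
      gcongr
      refine (ContinuousLinearMap.le_opNorm _ _).trans ?_
      rw [norm_star_xi h x.2]
    calc _ ≤ (‖(i.2 : H →L[ℂ] H)‖ * (‖ρ (star (j.2 : H →L[ℂ] H))‖ * ‖(x : H →L[ℂ] H) ξ‖)) *
        ‖e (((star i.1 * j.1 : Elt M) : H →L[ℂ] H) ξ)‖ :=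
          mul_le_mul_of_nonneg_right h2 (norm_nonneg _)
      _ = _ := by ring
  · rintro _ ⟨X, hX, rfl⟩
    exact congrArg MulOpposite.unop (hsa X hX)
  · exact congrArg MulOpposite.unop hs
  · rintro _ ⟨X, hX, rfl⟩ _ ⟨Y, hY, rfl⟩
    obtain ⟨Z, hZ, h1, h2⟩ := hdir X hX Y hY
    exact ⟨_, ⟨Z, hZ, rfl⟩, (sle_op _ _).1 h1, (sle_op _ _).1 h2⟩
  · refine ⟨?_, ?_⟩
    · rintro _ ⟨X, hX, rfl⟩
      exact (sle_op _ _).1 (hsup.1 X hX)
    · intro t ht hub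
      have := hsup.2 (MulOpposite.op t) (congrArg MulOpposite.op ht) (fun X hX =>
        (sle_op _ _).2 (hub _ ⟨X, hX, rfl⟩))
      exact (sle_op _ _).1 this

end normality

/-- the fixed vector property for one approximation -/
theorem unitary_fixed (h : Std M ξ ρ) (p : Pr M ξ S e) (hT : ∀ ε : ℝ, 0 < ε →
      ∃ (F : Set (Elt M)) (δ : ℝ), (∀ x ∈ F, (x : H →L[ℂ] H) ∈ S) ∧ 0 < δ ∧
    ∀ (K : Type) [NormedAddCommGroup K] [InnerProductSpace ℂ K] [CompleteSpace K]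
      (L : Elt M →⋆ₐ[ℂ] (K →L[ℂ] K)) (R : (Elt M)ᵐᵒᵖ →⋆ₐ[ℂ] (K →L[ℂ] K)),
      IsNormalRep L → IsNormalRep R → (∀ x y, L x * R y = R y * L x) →
      ∀ ξ : K, ‖ξ‖ = 1 → (∀ x ∈ F, ‖L x ξ - R (MulOpposite.op x) ξ‖ < δ) →
        ∃ η : K, (∀ x : Elt M, L x η = R (MulOpposite.op x) η) ∧ ‖η - ξ‖ < ε)
    (u : Elt M) (hu1 : star u * u = 1) (hu2 : u * star u = 1) :
    e ((u : H →L[ℂ] H) ξ) = (u : H →L[ℂ] H) ξ := by
  obtain ⟨K, i1, i2, i3, v, L, R, hv, hd, hL, hR, hLn, hRn⟩ := exists_bimodule h p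
  have hNL : IsNormalRep L := normal_left h v L hv hd hL hLn
  have hNR : IsNormalRep R := normal_right h v R hv hd hR hRn
  have hLR : ∀ x y, L x * R y = R y * L x := by
    intro x y
    refine eq_total v hd _ _ fun i => ?_
    show L x (R y (v i)) = R y (L x (v i))
    have e1 : y = MulOpposite.op (MulOpposite.unop y) := rfl
    rw [e1, hR, hL, hL, hR]
  obtain ⟨ζ, hζ⟩ : ∃ ζ, ζ = v (1, 1) := ⟨_, rfl⟩
  have k11 : ker ξ e ((1, 1) : Elt M × Elt M) (1, 1) = 1 := by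
    unfold ker
    have e1 : ((1 * star 1 : Elt M) : H →L[ℂ] H) ξ = ξ := by
      have : (1 * star 1 : Elt M) = 1 := by rw [star_one, mul_one]
      rw [this]; rfl
    have e2 : ((star 1 * 1 : Elt M) : H →L[ℂ] H) ξ = ξ := by
      have : (star 1 * 1 : Elt M) = 1 := by rw [star_one, mul_one]
      rw [this]; rfl
    show ⟪((1 * star 1 : Elt M) : H →L[ℂ] H) ξ, e (((star 1 * 1 : Elt M) : H →L[ℂ] H) ξ)⟫_ℂ = 1
    rw [e1, e2, e_xi p, inner_self_eq_norm_sq_to_K, h.unit]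
    simp
  have hζ1 : ‖ζ‖ = 1 := by
    have e1 : ⟪ζ, ζ⟫_ℂ = 1 := by rw [hζ, hv, k11]
    rw [inner_self_eq_norm_sq_to_K] at e1
    have e2 : ‖ζ‖ ^ 2 = 1 := by
      have e3 : ((‖ζ‖ ^ 2 : ℝ) : ℂ) = ((1 : ℝ) : ℂ) := by
        push_cast
        exact e1
      exact Complex.ofReal_injective e3
    nlinarith [norm_nonneg ζ]
  -- central over S
  have hcen : ∀ a : Elt M, (a : H →L[ℂ] H) ∈ S → L a ζ = R (MulOpposite.op a) ζ := by
    intro a ha
    rw [hζ, hL, hR]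
    simp only [mul_one, one_mul]
    rw [← sub_eq_zero, ← norm_eq_zero]
    have n0 : ⟪v (a, 1) - v (1, a), v (a, 1) - v (1, a)⟫_ℂ = 0 := by
      rw [inner_sub_left, inner_sub_right, inner_sub_right, hv, hv, hv, hv]
      have q1 : ker ξ e (a, 1) (a, 1) = ⟪(a : H →L[ℂ] H) ξ, (a : H →L[ℂ] H) ξ⟫_ℂ := by
        unfold ker
        have e1 : ((1 * star 1 : Elt M) : H →L[ℂ] H) ξ = ξ := by
          have : (1 * star 1 : Elt M) = 1 := by rw [star_one, mul_one]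
          rw [this]; rfl
        show ⟪((1 * star 1 : Elt M) : H →L[ℂ] H) ξ,
          e (((star a * a : Elt M) : H →L[ℂ] H) ξ)⟫_ℂ = _
        rw [e1]
        have e2 : e (((star a * a : Elt M) : H →L[ℂ] H) ξ) = star (a : H →L[ℂ] H)
            ((a : H →L[ℂ] H) ξ) := p.fix (star (a : H →L[ℂ] H) * (a : H →L[ℂ] H))
              (mul_mem (star_mem ha) ha)
        rw [e2, ContinuousLinearMap.star_eq_adjoint, ContinuousLinearMap.adjoint_inner_right]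
      have q2 : ker ξ e (a, 1) (1, a) = ⟪(a : H →L[ℂ] H) ξ, (a : H →L[ℂ] H) ξ⟫_ℂ := by
        unfold ker
        have e1 : ((1 * star a : Elt M) : H →L[ℂ] H) ξ = star (a : H →L[ℂ] H) ξ := by
          have : (1 * star a : Elt M) = star a := by rw [one_mul]
          rw [this]; rfl
        have e3 : ((star a * 1 : Elt M) : H →L[ℂ] H) ξ = star (a : H →L[ℂ] H) ξ := by
          have : (star a * 1 : Elt M) = star a := by rw [mul_one]
          rw [this]; rfl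
        show ⟪((1 * star a : Elt M) : H →L[ℂ] H) ξ,
          e (((star a * 1 : Elt M) : H →L[ℂ] H) ξ)⟫_ℂ = _
        rw [e1, e3, p.fix _ (star_mem ha), tr_inner h a.2 a.2]
      have q3 : ker ξ e (1, a) (a, 1) = ⟪(a : H →L[ℂ] H) ξ, (a : H →L[ℂ] H) ξ⟫_ℂ := by
        rw [← ker_symm h p, q2, inner_conj_symm]
      have q4 : ker ξ e (1, a) (1, a) = ⟪(a : H →L[ℂ] H) ξ, (a : H →L[ℂ] H) ξ⟫_ℂ := by
        unfold ker
        have e1 : ((star 1 * 1 : Elt M) : H →L[ℂ] H) ξ = ξ := by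
          have : (star 1 * 1 : Elt M) = 1 := by rw [star_one, mul_one]
          rw [this]; rfl
        show ⟪((a * star a : Elt M) : H →L[ℂ] H) ξ,
          e (((star 1 * 1 : Elt M) : H →L[ℂ] H) ξ)⟫_ℂ = _
        rw [e1, e_xi p]
        show ⟪(a : H →L[ℂ] H) (star (a : H →L[ℂ] H) ξ), ξ⟫_ℂ = _
        rw [← ContinuousLinearMap.adjoint_inner_right, ← ContinuousLinearMap.star_eq_adjoint,
          tr_inner h a.2 a.2]
      rw [q1, q2, q3, q4]
      ring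
    rw [inner_self_eq_norm_sq_to_K] at n0
    have n1 : ((‖v (a, 1) - v (1, a)‖ : ℝ) : ℂ) ^ 2 = 0 := n0
    have n2 := pow_eq_zero_iff (two_ne_zero) |>.1 n1
    exact_mod_cast n2
  -- the twisted vector
  obtain ⟨W, hW⟩ : ∃ W : K →L[ℂ] K, W = L u * R (MulOpposite.op (star u)) := ⟨_, rfl⟩
  have hun : ∀ w : Elt M, star w * w = 1 → ‖(w : H →L[ℂ] H)‖ ≤ 1 := by
    intro w hw
    have e1 : ‖star (w : H →L[ℂ] H) * (w : H →L[ℂ] H)‖ =
        ‖(w : H →L[ℂ] H)‖ * ‖(w : H →L[ℂ] H)‖ := CStarRing.norm_star_mul_self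
    have e2 : star (w : H →L[ℂ] H) * (w : H →L[ℂ] H) = 1 :=
      congrArg (fun t : Elt M => (t : H →L[ℂ] H)) hw
    rw [e2] at e1
    have e3 : ‖(1 : H →L[ℂ] H)‖ ≤ 1 := ContinuousLinearMap.norm_id_le
    nlinarith [norm_nonneg (w : H →L[ℂ] H)]
  have hWn : ‖W‖ ≤ 1 := by
    rw [hW]
    refine (norm_mul_le _ _).trans ?_
    have e1 := (hLn u).trans (hun u hu1)
    have e2 := (hRn (star u)).trans (hun (star u) (by rw [star_star]; exact hu2))
    calc ‖L u‖ * ‖R (MulOpposite.op (star u))‖ ≤ 1 * 1 :=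
          mul_le_mul e1 e2 (norm_nonneg _) zero_le_one
      _ = 1 := one_mul _
  have hWζ : W ζ = v (u, star u) := by
    rw [hW, hζ]
    show L u (R (MulOpposite.op (star u)) (v (1, 1))) = _
    rw [hR, hL]
    simp only [mul_one, one_mul]
  have in1 : ⟪ζ, W ζ⟫_ℂ = ((‖e ((u : H →L[ℂ] H) ξ)‖ ^ 2 : ℝ) : ℂ) := by
    rw [hWζ, hζ, hv]
    unfold ker
    have e1 : ((1 * star (star u) : Elt M) : H →L[ℂ] H) ξ = (u : H →L[ℂ] H) ξ := by
      have : (1 * star (star u) : Elt M) = u := by rw [star_star, one_mul]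
      rw [this]
    have e2 : ((star 1 * u : Elt M) : H →L[ℂ] H) ξ = (u : H →L[ℂ] H) ξ := by
      have : (star 1 * u : Elt M) = u := by rw [star_one, one_mul]
      rw [this]
    show ⟪((1 * star (star u) : Elt M) : H →L[ℂ] H) ξ,
      e (((star 1 * u : Elt M) : H →L[ℂ] H) ξ)⟫_ℂ = _
    rw [e1, e2]
    obtain ⟨w, hw⟩ : ∃ w, w = (u : H →L[ℂ] H) ξ := ⟨_, rfl⟩
    rw [← hw]
    have e3 : ⟪w, e w⟫_ℂ = ⟪e w, e w⟫_ℂ := by
      conv_lhs => rw [← ee p w]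
      rw [← ContinuousLinearMap.adjoint_inner_left, ← ContinuousLinearMap.star_eq_adjoint, p.sa]
    rw [e3, inner_self_eq_norm_sq_to_K]
    push_cast
    rfl
  have hWζn : ‖W ζ‖ ≤ 1 := by
    calc ‖W ζ‖ ≤ ‖W‖ * ‖ζ‖ := W.le_opNorm _
      _ ≤ 1 := by rw [hζ1, mul_one]; exact hWn
  have hWζn' : ‖W ζ‖ = 1 := by
    have e1 : ⟪W ζ, W ζ⟫_ℂ = 1 := by
      rw [hWζ, hv]
      unfold ker
      have e1 : ((star u * star (star u) : Elt M) : H →L[ℂ] H) ξ = ξ := by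
        have : (star u * star (star u) : Elt M) = 1 := by rw [star_star, hu1]
        rw [this]; rfl
      have e2 : ((star u * u : Elt M) : H →L[ℂ] H) ξ = ξ := by
        rw [hu1]; rfl
      show ⟪((star u * star (star u) : Elt M) : H →L[ℂ] H) ξ,
        e (((star u * u : Elt M) : H →L[ℂ] H) ξ)⟫_ℂ = 1
      rw [e1, e2, e_xi p, inner_self_eq_norm_sq_to_K, h.unit]
      simp
    rw [inner_self_eq_norm_sq_to_K] at e1
    have e2 : ‖W ζ‖ ^ 2 = 1 := by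
      have e3 : ((‖W ζ‖ ^ 2 : ℝ) : ℂ) = ((1 : ℝ) : ℂ) := by
        push_cast
        exact e1
      exact Complex.ofReal_injective e3
    nlinarith [norm_nonneg (W ζ)]
  have hnear : ∀ ε : ℝ, 0 < ε → ‖W ζ - ζ‖ ≤ 2 * ε := by
    intro ε hε
    obtain ⟨F, δ, hF, hδ, hTT⟩ := hT ε hε
    obtain ⟨η, hη, hηζ⟩ := hTT K L R hNL hNR hLR ζ hζ1 (fun x hx => by
      rw [hcen x (hF x hx), sub_self, norm_zero]; exact hδ)
    have e1 : W η = η := by
      rw [hW]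
      show L u (R (MulOpposite.op (star u)) η) = η
      rw [← hη (star u)]
      have : L u (L (star u) η) = (L u * L (star u)) η := rfl
      rw [this, ← map_mul, hu2, map_one]; rfl
    have e2 : W ζ - ζ = W (ζ - η) + (η - ζ) := by
      rw [map_sub, e1]; abel
    rw [e2]
    refine (norm_add_le _ _).trans ?_
    have e3 : ‖W (ζ - η)‖ ≤ 1 * ‖ζ - η‖ :=
      (W.le_opNorm _).trans (mul_le_mul_of_nonneg_right hWn (norm_nonneg _))
    rw [norm_sub_rev ζ η] at e3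
    linarith
  have hWe : W ζ = ζ := by
    rw [← sub_eq_zero, ← norm_eq_zero]
    refine le_antisymm ?_ (norm_nonneg _)
    refine le_of_forall_pos_le_add fun ε hε => ?_
    have := hnear (ε / 2) (by positivity)
    linarith
  rw [hWe] at in1
  have e1 : ‖e ((u : H →L[ℂ] H) ξ)‖ ^ 2 = 1 := by
    apply Complex.ofReal_injective
    rw [← in1, inner_self_eq_norm_sq_to_K, hζ1]
    simp
  -- conclude
  have e2 : ‖(u : H →L[ℂ] H) ξ‖ ≤ 1 := by
    calc ‖(u : H →L[ℂ] H) ξ‖ ≤ ‖(u : H →L[ℂ] H)‖ * ‖ξ‖ := ContinuousLinearMap.le_opNorm _ _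
      _ ≤ 1 := by rw [h.unit, mul_one]; exact hun u hu1
  obtain ⟨w, hw⟩ : ∃ w, w = (u : H →L[ℂ] H) ξ := ⟨_, rfl⟩
  rw [← hw] at e1 e2 ⊢
  have e3 : ‖w‖ ^ 2 = ‖e w‖ ^ 2 + ‖w - e w‖ ^ 2 := by
    have o1 : ⟪e w, w - e w⟫_ℂ = 0 := by
      rw [inner_sub_right]
      have : ⟪e w, w⟫_ℂ = ⟪e w, e w⟫_ℂ := by
        conv_lhs => rw [← ee p w]
        rw [← ContinuousLinearMap.adjoint_inner_right, ← ContinuousLinearMap.star_eq_adjoint, p.sa]
      rw [this, sub_self]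
    have o2 : w = e w + (w - e w) := by abel
    conv_lhs => rw [o2]
    have := norm_add_sq_eq_norm_sq_add_norm_sq_of_inner_eq_zero (𝕜 := ℂ) (e w) (w - e w) o1
    rw [sq, sq, sq]
    exact this
  have e4 : ‖w - e w‖ ^ 2 ≤ 0 := by
    have : ‖w‖ ^ 2 ≤ 1 := by
      have := pow_le_pow_left₀ (norm_nonneg w) e2 2
      simpa using this
    linarith
  have e5 : ‖w - e w‖ = 0 := by
    have := le_antisymm e4 (sq_nonneg _)
    exact pow_eq_zero_iff (two_ne_zero) |>.1 this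
  rw [norm_eq_zero, sub_eq_zero] at e5
  exact e5.symm

end Pool.Agent.W621.KKS
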