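import Mathlib
import Pool.Agent.W621.KKS.TSep

set_option autoImplicit false
set_option linter.unusedSectionVars false

open scoped InnerProductSpace ComplexConjugate
open Filter Topology Pool.Agent.Helper278 Pool.Agent.W662.KKS

namespace Pool.Agent.W621.KKS

variable {H : Type} [NormedAddCommGroup H] [InnerProductSpace ℂ H] [CompleteSpace H]
variable {M : VonNeumannAlgebra H} {ξ : H} {ρ : (H →L[ℂ] H) → (H →L[ℂ] H)}
  {S : StarSubalgebra ℂ (H →L[ℂ] H)} {e : H →L[ℂ] H}

/-- selfadjoint contractions are averages of unitaries -/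
theorem sa_unitary (M : VonNeumannAlgebra H) (h : H →L[ℂ] H) (hh : h ∈ M) (hs : star h = h)
    (hn : ‖h‖ ≤ 1) : ∃ u ∈ M, star u * u = 1 ∧ u * star u = 1 ∧ u + star u = (2 : ℂ) • h := by
  let a : selfAdjoint (H →L[ℂ] H) := ⟨h, hs⟩
  refine ⟨(selfAdjoint.unitarySelfAddISMul a hn : H →L[ℂ] H), ?_, ?_, ?_, ?_⟩
  · show h + Complex.I • CFC.sqrt (1 - h ^ 2) ∈ M
    rw [← VonNeumannAlgebra.commutant_commutant M, VonNeumannAlgebra.mem_commutant_iff]
    intro t ht
    have c0 : Commute t h := by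
      rw [VonNeumannAlgebra.mem_commutant_iff] at ht
      exact (ht h hh).symm
    have c1 : Commute t (1 - h ^ 2) := (Commute.one_right t).sub_right (c0.pow_right 2)
    have c2 : Commute t (CFC.sqrt (1 - h ^ 2)) := by
      rw [CFC.sqrt]
      exact (c1.symm.cfcₙ_nnreal _).symm
    exact (c0.add_right (c2.smul_right Complex.I))
  · exact Unitary.coe_star_mul_self _
  · exact Unitary.coe_mul_star_self _
  · have e := selfAdjoint.star_coe_unitarySelfAddISMul a hn
    have e' : (selfAdjoint.unitarySelfAddISMul a hn : H →L[ℂ] H) +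
        star (selfAdjoint.unitarySelfAddISMul a hn : H →L[ℂ] H) =
        (h + Complex.I • CFC.sqrt (1 - h ^ 2)) + (h - Complex.I • CFC.sqrt (1 - h ^ 2)) := by
      rw [e]; rfl
    refine e'.trans ?_
    rw [two_smul]; abel

/-- a linear condition which holds for unitaries holds for all elements -/
theorem all_of_unitary (M : VonNeumannAlgebra H) (ξ : H) (e : H →L[ℂ] H)
    (hu : ∀ u ∈ M, star u * u = 1 → u * star u = 1 → e (u ξ) = u ξ) :
    ∀ x ∈ M, e (x ξ) = x ξ := by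
  have h1 : ∀ h ∈ M, star h = h → ‖h‖ ≤ 1 → e (h ξ) = h ξ := by
    intro h hh hs hn
    obtain ⟨u, huM, h1, h2, h3⟩ := sa_unitary M h hh hs hn
    have e1 := hu u huM h1 h2
    have e2 := hu (star u) (star_mem huM) (by rw [star_star]; exact h2)
      (by rw [star_star]; exact h1)
    have e3 : (2 : ℂ) • (h ξ) = u ξ + star u ξ := by
      have := congrArg (fun T : H →L[ℂ] H => T ξ) h3
      exact this.symm
    have e4 : e ((2 : ℂ) • (h ξ)) = (2 : ℂ) • (h ξ) := by
      rw [e3, map_add, e1, e2]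
    rw [map_smul] at e4
    exact smul_right_injective H (two_ne_zero) e4
  have h2 : ∀ h ∈ M, star h = h → e (h ξ) = h ξ := by
    intro h hh hs
    obtain ⟨r, hr⟩ : ∃ r : ℝ, r = ‖h‖ + 1 := ⟨_, rfl⟩
    have hr0 : 0 < r := by rw [hr]; positivity
    have e1 := h1 (((r⁻¹ : ℝ) : ℂ) • h) (M.toStarSubalgebra.smul_mem hh _) (by
      rw [star_smul, hs]
      congr 1
      exact Complex.conj_ofReal _) (by
      rw [norm_smul, Complex.norm_real, norm_inv, Real.norm_of_nonneg hr0.le,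
        inv_mul_le_iff₀ hr0, mul_one, hr]
      linarith)
    have e2 : (((r⁻¹ : ℝ) : ℂ) • h) ξ = ((r⁻¹ : ℝ) : ℂ) • (h ξ) := rfl
    rw [e2, map_smul] at e1
    exact smul_right_injective H (show ((r⁻¹ : ℝ) : ℂ) ≠ 0 by
      exact_mod_cast (inv_ne_zero hr0.ne')) e1
  intro x hx
  have hsx : star x ∈ M := star_mem hx
  have e1 := h2 (x + star x) (add_mem hx hsx) (by rw [star_add, star_star, add_comm])
  have e2 := h2 (Complex.I • (x - star x)) (M.toStarSubalgebra.smul_mem (sub_mem hx hsx) _) (by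
    rw [star_smul, star_sub, star_star]
    have : star Complex.I = -Complex.I := Complex.conj_I
    rw [this, neg_smul, ← smul_neg, neg_sub])
  have e3 : (Complex.I • (x - star x)) ξ = Complex.I • ((x - star x) ξ) := rfl
  rw [e3, map_smul] at e2
  have e4 := smul_right_injective H Complex.I_ne_zero e2
  have e5 : (2 : ℂ) • (x ξ) = (x + star x) ξ + (x - star x) ξ := by
    show (2 : ℂ) • (x ξ) = (x ξ + star x ξ) + (x ξ - star x ξ)
    rw [two_smul]; abel
  have e6 : e ((2 : ℂ) • (x ξ)) = (2 : ℂ) • (x ξ) := by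
    rw [e5, map_add, e1]
    congr 1
  rw [map_smul] at e6
  exact smul_right_injective H (two_ne_zero) e6

theorem countable_monoid {A : Type} [Monoid A] (s : Set A) (hs : s.Countable) :
    (Submonoid.closure s : Set A).Countable := by
  have : Countable s := hs.to_subtype
  have h1 : (Submonoid.closure s : Set A) ⊆ Set.range (fun l : List s => (l.map Subtype.val).prod) := by
    intro x hx
    obtain ⟨l, hl, rfl⟩ := Submonoid.exists_list_of_mem_closure hx
    refine ⟨l.attach.map (fun y => ⟨y.1, hl y.1 y.2⟩), ?_⟩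
    simp [List.map_map, Function.comp_def]
  exact (Set.countable_range _).mono h1

/-- property (T) implies separability, in standard form -/
theorem tsep_std (h : Std M ξ ρ) (hT : PropertyT (Elt M)) :
    ∃ x : ℕ → Elt M, ∀ y : Elt M, ∀ ε : ℝ, 0 < ε →
      ∃ n, ‖((y - x n : Elt M) : H →L[ℂ] H) ξ‖ ≤ ε := by
  classical
  have h1 : ∀ k : ℕ, ∃ (F : Set (Elt M)) (δ : ℝ), F.Finite ∧ 0 < δ ∧
    ∀ (K : Type) [NormedAddCommGroup K] [InnerProductSpace ℂ K] [CompleteSpace K]
      (L : Elt M →⋆ₐ[ℂ] (K →L[ℂ] K)) (R : (Elt M)ᵐᵒᵖ →⋆ₐ[ℂ] (K →L[ℂ] K)),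
      IsNormalRep L → IsNormalRep R → (∀ x y, L x * R y = R y * L x) →
      ∀ ξ : K, ‖ξ‖ = 1 → (∀ x ∈ F, ‖L x ξ - R (MulOpposite.op x) ξ‖ < δ) →
        ∃ η : K, (∀ x : Elt M, L x η = R (MulOpposite.op x) η) ∧ ‖η - ξ‖ < 1 / ((k : ℝ) + 1) :=
    fun k => hT _ (by positivity)
  choose F δ hF hδ hK using h1
  obtain ⟨D, hD⟩ : ∃ D : Set (H →L[ℂ] H), D = ⋃ k, (fun x : Elt M => (x : H →L[ℂ] H)) '' F k :=
    ⟨_, rfl⟩
  have hDc : D.Countable := by
    rw [hD]
    exact Set.countable_iUnion fun k => ((hF k).image _).countable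
  have hDM : ∀ a ∈ D, a ∈ M := by
    intro a ha
    rw [hD, Set.mem_iUnion] at ha
    obtain ⟨k, x, _, rfl⟩ := ha
    exact x.2
  let S : StarSubalgebra ℂ (H →L[ℂ] H) := StarAlgebra.adjoin ℂ D
  have hSM : ∀ a ∈ S, a ∈ M := by
    intro a ha
    have : S ≤ M.toStarSubalgebra := StarAlgebra.adjoin_le hDM
    exact this ha
  obtain ⟨e, p⟩ := exists_pr M ξ S hSM
  have hfix : ∀ x ∈ M, e (x ξ) = x ξ := by
    apply all_of_unitary
    intro u hu hu1 hu2
    refine unitary_fixed h p ?_ (⟨u, hu⟩ : Elt M) (Subtype.ext hu1) (Subtype.ext hu2)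
    intro ε hε
    obtain ⟨k, hk⟩ := exists_nat_one_div_lt hε
    refine ⟨F k, δ k, ?_, hδ k, ?_⟩
    · intro x hx
      apply StarAlgebra.subset_adjoin ℂ D
      rw [hD, Set.mem_iUnion]
      exact ⟨k, x, hx, rfl⟩
    · intro K _ _ _ L R hL hR hLR ζ hζ hx
      obtain ⟨η, h1, h2⟩ := hK k K L R hL hR hLR ζ hζ hx
      exact ⟨η, h1, h2.trans hk⟩
  -- separability
  obtain ⟨W, hW⟩ : ∃ W : Set (H →L[ℂ] H), W = (Submonoid.closure (D ∪ star D) : Set (H →L[ℂ] H)) :=
    ⟨_, rfl⟩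
  have hWc : W.Countable := by
    rw [hW]
    apply countable_monoid
    refine hDc.union ?_
    have : star D = star '' D := by
      ext x
      constructor
      · intro hx
        exact ⟨star x, hx, star_star x⟩
      · rintro ⟨y, hy, rfl⟩
        show star (star y) ∈ D
        rw [star_star]; exact hy
    rw [this]
    exact hDc.image _
  have hSspan : ∀ a ∈ S, a ξ ∈ Submodule.span ℂ ((fun w : H →L[ℂ] H => w ξ) '' W) := by
    intro a ha
    have h1 : a ∈ Submodule.span ℂ W := by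
      rw [hW, ← StarAlgebra.adjoin_eq_span]
      exact ha
    clear ha
    induction h1 using Submodule.span_induction with
    | mem x hx => exact Submodule.subset_span ⟨x, hx, rfl⟩
    | zero => exact Submodule.zero_mem _
    | add x y _ _ hx hy => exact Submodule.add_mem _ hx hy
    | smul r x _ hx => exact Submodule.smul_mem _ r hx
  have hsep : TopologicalSpace.IsSeparable (Set.univ : Set H) := by
    have h1 : TopologicalSpace.IsSeparable
        (closure (Submodule.span ℂ ((fun w : H →L[ℂ] H => w ξ) '' W) : Set H)) :=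
      ((hWc.image _).isSeparable.span).closure
    refine h1.mono ?_
    intro v _
    rw [Metric.mem_closure_iff]
    intro ε hε
    obtain ⟨x, hx, hvx⟩ := h.cyc v (ε / 3) (by positivity)
    obtain ⟨a, ha, hxa⟩ := p.app (x ξ) (ε / 3) (by positivity)
    rw [hfix x hx] at hxa
    refine ⟨a ξ, hSspan a ha, ?_⟩
    rw [dist_eq_norm]
    have : v - a ξ = (v - x ξ) + (x ξ - a ξ) := by abel
    rw [this]
    refine (norm_add_le _ _).trans_lt ?_
    linarith
  have : TopologicalSpace.SeparableSpace H := TopologicalSpace.isSeparable_univ_iff.1 hsep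
  have : SecondCountableTopology H := UniformSpace.secondCountable_of_separable H
  let Q : Set H := Set.range (fun x : Elt M => (x : H →L[ℂ] H) ξ)
  have : Nonempty Q := ⟨⟨_, ⟨1, rfl⟩⟩⟩
  obtain ⟨d, hd⟩ := TopologicalSpace.exists_dense_seq Q
  have hch : ∀ n, ∃ x : Elt M, (x : H →L[ℂ] H) ξ = (d n : H) := fun n => (d n).2
  choose x hx using hch
  refine ⟨x, fun y ε hε => ?_⟩
  obtain ⟨_, ⟨n, rfl⟩, hn⟩ := Metric.mem_closure_iff.1
    (hd ⟨(y : H →L[ℂ] H) ξ, ⟨y, rfl⟩⟩) ε hε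
  refine ⟨n, ?_⟩
  have h2 : dist ((y : H →L[ℂ] H) ξ) (d n : H) < ε := hn
  rw [dist_eq_norm, ← hx n] at h2
  exact h2.le

/-- TSEP: II₁ factors with property (T) are separable. -/
theorem tsep (h1 : S_TISO) (h2 : S_RED) (h3 : S_STD) : S_TSEP := by
  intro H _ _ _ M τ hM hT
  obtain ⟨K, hK, hred⟩ := h2
  have hK0 : (0 : ℝ) < 1 / K := by positivity
  have hnear : Near (M : Set (H →L[ℂ] H)) M (1 / K) := by
    intro x hx
    refine ⟨x, hx, ?_⟩
    rw [sub_self, norm_zero]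
    positivity
  obtain ⟨H₁, i1, i2, i3, M₁, N₁, τ₁, ξ, θ, _, hM₁, hξ, hcyc, htr, hθ, -⟩ :=
    hred H M M τ τ (1 / K) hM hM hK0 le_rfl hnear hnear
  obtain ⟨ρ, hρ⟩ := h3 H₁ M₁ ξ hξ hcyc htr
  have hT₁ : PropertyT (Elt M₁) := h1 _ _ ⟨θ⟩ hT
  obtain ⟨x, hx⟩ := tsep_std hρ hT₁
  refine ⟨fun n => θ.symm (x n), fun y ε hε => ?_⟩
  obtain ⟨n, hn⟩ := hx (θ y) ε hε
  refine ⟨n, ?_⟩
  obtain ⟨z, hz⟩ : ∃ z, z = y - θ.symm (x n) := ⟨_, rfl⟩
  have e1 : θ z = θ y - x n := by
    rw [hz, map_sub]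
    congr 1
    exact θ.apply_symm_apply (x n)
  rw [← e1] at hn
  show norm2 τ (y - θ.symm (x n)) ≤ ε
  rw [← hz]
  unfold norm2
  have e2 : (τ (star z * z)).re = ‖(θ z : H₁ →L[ℂ] H₁) ξ‖ ^ 2 := by
    rw [← hθ (star z * z), map_mul, map_star]
    exact (norm_sq_of (s := (θ z : H₁ →L[ℂ] H₁)) rfl ξ).symm
  rw [e2, Real.sqrt_sq (norm_nonneg _)]
  exact hn

end Pool.Agent.W621.KKS
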